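import Pool.Agent.H95.MPDefs

open MeasureTheory Filter Topology Set ProbabilityTheory
open scoped ENNReal NNReal BoundedContinuousFunction

namespace Pool.Agent.H95.MP

namespace Prof

theorem ConvTo.tendsto {u : ℕ → Prof} {f : Prof} (h : ConvTo u f) : Tendsto u atTop (𝓝 f) := by
  rw [tendsto_nhds]
  intro O hO hf
  exact isOpen_def.mp hO u f hf h

/-- sandwich principle: convergence on the rationals implies `ConvTo`. -/
theorem convTo_of_dense {u : ℕ → Prof} {f : Prof} {D : Set ℝ≥0} (hD : Dense D)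
    (h : ∀ t ∈ D, Tendsto (fun n => (u n).1 t) atTop (𝓝 (f.1 t))) : ConvTo u f := by
  intro t ht hc
  rw [tendsto_order]
  constructor
  · intro a ha
    -- find s ∈ D, s > t with f s > a
    have h1 : ∀ᶠ s in 𝓝 t, a < f.1 s := hc.eventually_const_lt ha
    obtain ⟨s, hs1, hs2, hs3⟩ : ∃ s ∈ D, t < s ∧ a < f.1 s := by
      obtain ⟨l, hl, hl'⟩ := (nhdsGE_basis_Ico t).eventually_iff.mp (h1.filter_mono nhdsWithin_le_nhds)
      obtain ⟨s, hs, hs'⟩ := hD.exists_between hl
      exact ⟨s, hs, hs'.1, hl' ⟨hs'.1.le, hs'.2⟩⟩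
    filter_upwards [(h s hs1).eventually_const_lt hs3] with n hn
    exact hn.trans_le ((u n).2.1 hs2.le)
  · intro a ha
    have h1 : ∀ᶠ s in 𝓝 t, f.1 s < a := hc.eventually_lt_const ha
    obtain ⟨s, hs1, hs2, hs3⟩ : ∃ s ∈ D, s < t ∧ f.1 s < a := by
      obtain ⟨l, hl, hl'⟩ := (nhdsLE_basis_of_exists_lt ⟨0, ht⟩).eventually_iff.mp
        (h1.filter_mono nhdsWithin_le_nhds)
      obtain ⟨s, hs, hs'⟩ := hD.exists_between hl
      exact ⟨s, hs, hs'.2, hl' ⟨hs'.1, hs'.2.le⟩⟩
    filter_upwards [(h s hs1).eventually_lt_const hs3] with n hn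
    exact ((u n).2.1 hs2.le).trans_lt hn

/-- pointwise convergence along any filter implies convergence in `Prof`. -/
theorem tendsto_of_pointwise {α : Type*} {l : Filter α} {v : α → Prof} {f : Prof}
    (h : ∀ t, Tendsto (fun a => (v a).1 t) l (𝓝 (f.1 t))) : Tendsto v l (𝓝 f) := by
  rw [tendsto_nhds]
  intro O hO hf
  by_contra hne
  obtain ⟨D, hDc, hDd⟩ := TopologicalSpace.exists_countable_dense ℝ≥0
  obtain ⟨q, hq⟩ := hDc.exists_eq_range hDd.nonempty
  have hne' : ∃ᶠ a in l, v a ∉ O := by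
    intro h2
    apply hne
    filter_upwards [h2] with a ha
    simpa using ha
  have hfin : ∀ k : ℕ, ∃ a, v a ∉ O ∧ ∀ j ∈ Finset.range k, |(v a).1 (q j) - f.1 (q j)| < 1 / ((k : ℝ) + 1) := by
    intro k
    have h1 : ∀ᶠ a in l, ∀ j ∈ Finset.range k, |(v a).1 (q j) - f.1 (q j)| < 1 / ((k : ℝ) + 1) := by
      rw [Filter.eventually_all_finset]
      intro j _
      have := Metric.tendsto_nhds.mp (h (q j)) (1 / ((k : ℝ) + 1)) (by positivity)
      simpa [Real.dist_eq] using this
    obtain ⟨a, ha1, ha2⟩ := (hne'.and_eventually h1).exists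
    exact ⟨a, ha1, ha2⟩
  choose a ha1 ha2 using hfin
  have hconv : ConvTo (fun k => v (a k)) f := by
    apply convTo_of_dense hDd
    intro t ht
    rw [hq] at ht
    obtain ⟨j, rfl⟩ := ht
    rw [Metric.tendsto_atTop]
    intro ε hε
    obtain ⟨K, hK⟩ := exists_nat_one_div_lt hε
    refine ⟨max K (j + 1), fun k hk => ?_⟩
    have h1 := ha2 k j (Finset.mem_range.mpr (by omega))
    rw [Real.dist_eq]
    refine h1.trans (lt_of_le_of_lt ?_ hK)
    apply one_div_le_one_div_of_le (by positivity)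
    have : (K : ℝ) ≤ k := by exact_mod_cast (le_max_left _ _).trans hk
    linarith
  obtain ⟨n, hn⟩ := (isOpen_def.mp hO _ _ hf hconv).exists
  exact ha1 n hn

/-- Integral functionals. -/
noncomputable def Psi (f : Prof) (q : ℚ) : ℝ := ∫ s in (0 : ℝ)..|(q : ℝ)|, f.1 s.toNNReal

theorem antitone_ext (f : Prof) : Antitone (fun s : ℝ => f.1 s.toNNReal) :=
  fun _ _ h => f.2.1 (Real.toNNReal_mono h)

theorem intervalIntegrable (f : Prof) (a b : ℝ) :
    IntervalIntegrable (fun s : ℝ => f.1 s.toNNReal) volume a b :=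
  (antitone_ext f).intervalIntegrable

theorem Psi_tendsto {u : ℕ → Prof} {f : Prof} (h : ConvTo u f) (q : ℚ) :
    Tendsto (fun n => Psi (u n) q) atTop (𝓝 (Psi f q)) := by
  unfold Psi
  apply intervalIntegral.tendsto_integral_filter_of_dominated_convergence (fun _ => (1 : ℝ))
  · exact Eventually.of_forall (fun n => (antitone_ext (u n)).measurable.aestronglyMeasurable)
  · refine Eventually.of_forall (fun n => Eventually.of_forall (fun x _ => ?_))
    rw [Real.norm_eq_abs, abs_of_nonneg ((u n).2.2 _).1]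
    exact ((u n).2.2 _).2
  · exact intervalIntegrable_const
  · -- a.e. convergence
    have hc : {x : ℝ | ¬ContinuousAt (fun s : ℝ => f.1 s.toNNReal) x}.Countable :=
      (antitone_ext f).countable_not_continuousAt
    have hae : ∀ᵐ x : ℝ, ContinuousAt (fun s : ℝ => f.1 s.toNNReal) x := by
      rw [ae_iff]
      exact hc.measure_zero _
    filter_upwards [hae] with x hx hx0
    have hpos : 0 < x := by
      rw [uIoc_of_le (abs_nonneg _)] at hx0
      exact hx0.1
    apply h
    · exact Real.toNNReal_pos.mpr hpos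
    · have : (f.1) = (fun s : ℝ => f.1 s.toNNReal) ∘ (fun t : ℝ≥0 => (t : ℝ)) := by
        ext t; simp
      rw [this]
      apply ContinuousAt.comp
      · rw [Real.coe_toNNReal _ hpos.le]
        exact hx
      · exact NNReal.continuous_coe.continuousAt

theorem Psi_sub (f : Prof) {a b : ℚ} (ha : 0 ≤ a) (hab : a ≤ b) :
    Psi f b - Psi f a = ∫ s in (a : ℝ)..(b : ℝ), f.1 s.toNNReal := by
  have hb : 0 ≤ b := ha.trans hab
  have ha' : |(a : ℝ)| = a := abs_of_nonneg (by exact_mod_cast ha)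
  have hb' : |(b : ℝ)| = b := abs_of_nonneg (by exact_mod_cast hb)
  unfold Psi
  rw [ha', hb', intervalIntegral.integral_interval_sub_left (intervalIntegrable f _ _)
    (intervalIntegrable f _ _)]

theorem Psi_lower (f : Prof) {a b : ℚ} (ha : 0 ≤ a) (hab : a ≤ b) :
    ((b : ℝ) - a) * f.1 (b : ℝ).toNNReal ≤ Psi f b - Psi f a := by
  rw [Psi_sub f ha hab]
  have hab' : (a : ℝ) ≤ b := by exact_mod_cast hab
  have h1 : ∫ s in (a : ℝ)..(b : ℝ), f.1 (b : ℝ).toNNReal = ((b : ℝ) - a) * f.1 (b : ℝ).toNNReal := by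
    simp
  rw [← h1]
  apply intervalIntegral.integral_mono_on hab' intervalIntegrable_const (intervalIntegrable f _ _)
  intro x hx
  exact antitone_ext f hx.2

theorem Psi_upper (f : Prof) {a b : ℚ} (ha : 0 ≤ a) (hab : a ≤ b) :
    Psi f b - Psi f a ≤ ((b : ℝ) - a) * f.1 (a : ℝ).toNNReal := by
  rw [Psi_sub f ha hab]
  have hab' : (a : ℝ) ≤ b := by exact_mod_cast hab
  have h1 : ∫ s in (a : ℝ)..(b : ℝ), f.1 (a : ℝ).toNNReal = ((b : ℝ) - a) * f.1 (a : ℝ).toNNReal := by
    simp
  rw [← h1]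
  apply intervalIntegral.integral_mono_on hab' (intervalIntegrable f _ _) intervalIntegrable_const
  intro x hx
  exact antitone_ext f hx.1

theorem convTo_of_Psi {u : ℕ → Prof} {f : Prof}
    (h : ∀ q, Tendsto (fun n => Psi (u n) q) atTop (𝓝 (Psi f q))) : ConvTo u f := by
  intro t ht hc
  rw [tendsto_order]
  constructor
  · intro c hcf
    obtain ⟨c', hc'1, hc'2⟩ := exists_between hcf
    have h1 : ∀ᶠ s in 𝓝 t, c' < f.1 s := hc.eventually_const_lt hc'2
    obtain ⟨l, hl, hl'⟩ := (nhdsGE_basis_Ico t).eventually_iff.mp (h1.filter_mono nhdsWithin_le_nhds)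
    have hl2 : (t : ℝ) < (l : ℝ) := by exact_mod_cast hl
    obtain ⟨a, ha1, ha2⟩ := exists_rat_btwn hl2
    obtain ⟨b, hb1, hb2⟩ := exists_rat_btwn ha2
    have ha0' : (0 : ℝ) < a := lt_of_le_of_lt t.2 ha1
    have ha0 : 0 ≤ a := by exact_mod_cast ha0'.le
    have hab : a ≤ b := by exact_mod_cast hb1.le
    have hb0' : (0 : ℝ) < b := ha0'.trans hb1
    have h2 : c' < f.1 (b : ℝ).toNNReal := by
      apply hl'
      constructor
      · rw [Real.le_toNNReal_iff_coe_le hb0'.le]; exact (ha1.trans hb1).le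
      · rw [← Real.toNNReal_coe (r := l)]
        exact (Real.toNNReal_lt_toNNReal_iff (hb0'.trans hb2)).mpr hb2
    have hba : (0 : ℝ) < (b : ℝ) - a := sub_pos.mpr hb1
    have h3 : ((b : ℝ) - a) * c < Psi f b - Psi f a := by
      have := Psi_lower f ha0 hab
      nlinarith
    filter_upwards [((h b).sub (h a)).eventually_const_lt h3] with n hn
    have h4 := Psi_upper (u n) ha0 hab
    have h5 : (u n).1 (a : ℝ).toNNReal ≤ (u n).1 t := by
      apply (u n).2.1
      rw [Real.le_toNNReal_iff_coe_le ha0'.le]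
      exact ha1.le
    have h6 : ((b : ℝ) - a) * c < ((b : ℝ) - a) * (u n).1 (a : ℝ).toNNReal := hn.trans_le h4
    exact (lt_of_mul_lt_mul_left h6 hba.le).trans_le h5
  · intro c hcf
    obtain ⟨c', hc'1, hc'2⟩ := exists_between hcf
    have h1 : ∀ᶠ s in 𝓝 t, f.1 s < c' := hc.eventually_lt_const hc'1
    obtain ⟨l, hl, hl'⟩ := (nhdsLE_basis_of_exists_lt ⟨0, ht⟩).eventually_iff.mp
      (h1.filter_mono nhdsWithin_le_nhds)
    have hl2 : (l : ℝ) < (t : ℝ) := by exact_mod_cast hl
    obtain ⟨b, hb1, hb2⟩ := exists_rat_btwn hl2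
    obtain ⟨a, ha1, ha2⟩ := exists_rat_btwn hb1
    have ha0' : (0 : ℝ) < a := lt_of_le_of_lt l.2 ha1
    have ha0 : 0 ≤ a := by exact_mod_cast ha0'.le
    have hab : a ≤ b := by exact_mod_cast ha2.le
    have hb0' : (0 : ℝ) < b := ha0'.trans ha2
    have h2 : f.1 (a : ℝ).toNNReal < c' := by
      apply hl'
      constructor
      · rw [Real.lt_toNNReal_iff_coe_lt]; exact ha1
      · rw [Real.toNNReal_le_iff_le_coe]; exact (ha2.trans hb2).le
    have hba : (0 : ℝ) < (b : ℝ) - a := sub_pos.mpr ha2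
    have h3 : Psi f b - Psi f a < ((b : ℝ) - a) * c := by
      have := Psi_upper f ha0 hab
      nlinarith
    filter_upwards [((h b).sub (h a)).eventually_lt_const h3] with n hn
    have h4 := Psi_lower (u n) ha0 hab
    have h5 : (u n).1 t ≤ (u n).1 (b : ℝ).toNNReal := by
      apply (u n).2.1
      rw [Real.toNNReal_le_iff_le_coe]
      exact hb2.le
    have h6 : ((b : ℝ) - a) * (u n).1 (b : ℝ).toNNReal < ((b : ℝ) - a) * c := h4.trans_lt hn
    exact h5.trans_lt (lt_of_mul_lt_mul_left h6 hba.le)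

theorem isInducing_Psi : IsInducing Psi := by
  constructor
  apply le_antisymm
  · -- Psi continuous
    rw [← continuous_iff_le_induced]
    rw [continuous_def]
    intro V hV
    rw [isOpen_def]
    intro u f hf hu
    have h1 : Tendsto (fun n => Psi (u n)) atTop (𝓝 (Psi f)) :=
      tendsto_pi_nhds.mpr (fun q => Psi_tendsto hu q)
    exact h1.eventually (hV.mem_nhds hf)
  · -- sequentially open sets are open for the induced topology
    intro O hO
    let τ : TopologicalSpace Prof := TopologicalSpace.induced Psi inferInstance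
    have hind : @IsInducing Prof (ℚ → ℝ) τ _ Psi := @IsInducing.mk _ _ τ _ _ rfl
    have hfc : @FirstCountableTopology Prof τ := hind.firstCountableTopology
    have hseq : @SequentialSpace Prof τ := inferInstance
    have hclosed : @IsSeqClosed Prof τ Oᶜ := by
      intro v g hv hg hgO
      have h1 : Tendsto (fun n => Psi (v n)) atTop (𝓝 (Psi g)) := by
        exact hind.tendsto_nhds_iff.mp hg
      have h2 : ConvTo v g := convTo_of_Psi (fun q => (tendsto_pi_nhds.mp h1) q)
      obtain ⟨n, hn⟩ := (isOpen_def.mp hO v g hgO h2).exists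
      exact hv n hn
    have h3 : @IsClosed Prof τ Oᶜ := @IsSeqClosed.isClosed Prof τ hseq _ hclosed
    have h4 : @IsOpen Prof τ O := by
      have := @IsClosed.isOpen_compl Prof τ _ h3
      rwa [compl_compl] at this
    exact h4

instance : TopologicalSpace.PseudoMetrizableSpace Prof := isInducing_Psi.pseudoMetrizableSpace

/-- Sanity check: sequential convergence in `Prof` is exactly pointwise convergence at the
positive continuity points of the limit. -/
theorem tendsto_iff {u : ℕ → Prof} {f : Prof} : Tendsto u atTop (𝓝 f) ↔ ConvTo u f := by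
  constructor
  · intro h
    apply convTo_of_Psi
    intro q
    have h1 := isInducing_Psi.tendsto_nhds_iff.mp h
    exact (tendsto_pi_nhds.mp h1) q
  · exact ConvTo.tendsto

end Prof

end Pool.Agent.H95.MP
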