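import Pool.Agent.H95.MPLoeb
import Pool.Agent.H95.MPProf

set_option linter.unusedSectionVars false

open MeasureTheory Filter Topology Set ProbabilityTheory
open scoped ENNReal NNReal BoundedContinuousFunction

namespace Pool.Agent.H95.MP

section Kern

variable {ι : Type} {W : Ultrafilter ι} {E F : ι → Type}
variable [∀ i, MeasurableSpace (E i)] [∀ i, DiscreteMeasurableSpace (E i)]
variable [∀ i, MeasurableSpace (F i)] [∀ i, DiscreteMeasurableSpace (F i)]
variable [Incomplete W] [∀ i, Nonempty (E i)] [∀ i, Nonempty (F i)]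

theorem measure_ext {μ ν : Measure (UProd W E)} [IsProbabilityMeasure μ] [IsProbabilityMeasure ν]
    (h : ∀ A : ∀ i, Set (E i), μ.real (intSet W A) = ν.real (intSet W A)) : μ = ν := by
  refine ext_of_generate_finite (internal W E) rfl isPiSystem_internal ?_ (by simp)
  rintro _ ⟨A, rfl⟩
  exact (measureReal_eq_measureReal_iff).mp (h A)

theorem real_mem_Icc {S : Type*} [MeasurableSpace S] (μ : Measure S) [IsProbabilityMeasure μ]
    (A : Set S) : μ.real A ∈ Icc (0 : ℝ) 1 := ⟨measureReal_nonneg, measureReal_le_one⟩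

theorem loeb_real_eq_st (κ : ∀ i, Kernel (E i) (F i)) [∀ i, IsMarkovKernel (κ i)]
    (A : ∀ i, Set (F i)) (x : UProd W E) :
    (loeb W (fun i => κ i (x.val i))).real (intSet W A)
      = st W (fun i y => (κ i y).real (A i)) x := by
  refine tendsto_nhds_unique (loeb_intSet_real (fun i => κ i (x.val i)) A) ?_
  exact tendsto_st (g := fun i y => (κ i y).real (A i)) (fun i y => real_mem_Icc _ _) x

variable (W) in
/-- The kernel between ultraproducts defined by a family of kernels. -/
noncomputable def loebKernel (κ : ∀ i, Kernel (E i) (F i)) [∀ i, IsMarkovKernel (κ i)] :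
    Kernel (UProd W E) (UProd W F) where
  toFun x := loeb W (fun i => κ i (x.val i))
  measurable' := by
    refine Measurable.measure_of_isPiSystem_of_isProbabilityMeasure rfl isPiSystem_internal ?_
    rintro _ ⟨A, rfl⟩
    have h : (fun x : UProd W E => loeb W (fun i => κ i (x.val i)) (intSet W A))
        = fun x => ENNReal.ofReal (st W (fun i y => (κ i y).real (A i)) x) := by
      ext x
      rw [← loeb_real_eq_st κ A x, ofReal_measureReal]
    rw [h]
    exact (measurable_st (fun i y => real_mem_Icc _ _)).ennreal_ofReal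

theorem loebKernel_apply (κ : ∀ i, Kernel (E i) (F i)) [∀ i, IsMarkovKernel (κ i)]
    (x : UProd W E) : loebKernel W κ x = loeb W (fun i => κ i (x.val i)) := rfl

instance (κ : ∀ i, Kernel (E i) (F i)) [∀ i, IsMarkovKernel (κ i)] :
    IsMarkovKernel (loebKernel W κ) := ⟨fun x => by rw [loebKernel_apply]; infer_instance⟩

instance bindProb {S T : Type*} [MeasurableSpace S] [MeasurableSpace T] (μ : Measure S)
    [IsProbabilityMeasure μ] (κ : Kernel S T) [IsMarkovKernel κ] :
    IsProbabilityMeasure (μ.bind κ) := by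
  constructor
  rw [Measure.bind_apply MeasurableSet.univ κ.measurable.aemeasurable]
  simp

theorem loeb_bind (μ : ∀ i, Measure (E i)) [∀ i, IsProbabilityMeasure (μ i)]
    (κ : ∀ i, Kernel (E i) (F i)) [∀ i, IsMarkovKernel (κ i)] :
    (loeb W μ).bind (loebKernel W κ) = loeb W (fun i => (μ i).bind (κ i)) := by
  apply measure_ext
  intro A
  rw [bind_real _ _ (measurableSet_intSet A)]
  simp_rw [loebKernel_apply, loeb_real_eq_st κ A]
  refine tendsto_nhds_unique (tendsto_integral_st μ (fun i y => real_mem_Icc _ _)) ?_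
  have h := loeb_intSet_real (W := W) (fun i => (μ i).bind (κ i)) A
  refine h.congr (fun i => ?_)
  exact bind_real (μ i) (κ i) (MeasurableSet.of_discrete)

theorem loeb_dirac (x : UProd W E) : loeb W (fun i => Measure.dirac (x.val i)) = Measure.dirac x := by
  apply measure_ext
  intro A
  refine tendsto_nhds_unique (loeb_intSet_real (fun i => Measure.dirac (x.val i)) A) ?_
  by_cases hx : x ∈ intSet W A
  · have : (Measure.dirac x).real (intSet W A) = 1 := by
      rw [measureReal_def, Measure.dirac_apply' _ (measurableSet_intSet A)]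
      simp [hx]
    rw [this]
    refine tendsto_const_nhds.congr' ?_
    filter_upwards [hx] with i hi
    rw [measureReal_def, Measure.dirac_apply' _ (MeasurableSet.of_discrete)]
    simp [hi]
  · have : (Measure.dirac x).real (intSet W A) = 0 := by
      rw [measureReal_def, Measure.dirac_apply' _ (measurableSet_intSet A)]
      simp [hx]
    rw [this]
    refine tendsto_const_nhds.congr' ?_
    have hx' : x ∈ (intSet W A)ᶜ := hx
    rw [intSet_compl] at hx'
    filter_upwards [hx'] with i hi
    have hi' : x.val i ∉ A i := hi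
    rw [measureReal_def, Measure.dirac_apply' _ (MeasurableSet.of_discrete)]
    simp [hi']

theorem tendsto_tvDist (μ ν : ∀ i, Measure (E i)) [∀ i, IsProbabilityMeasure (μ i)]
    [∀ i, IsProbabilityMeasure (ν i)] :
    Tendsto (fun i => tvDist (μ i) (ν i)) W (𝓝 (tvDist (loeb W μ) (loeb W ν))) := by
  have hmem : ∀ i, tvDist (μ i) (ν i) ∈ Icc (0 : ℝ) 1 :=
    fun i => ⟨tvDist_nonneg _ _, tvDist_le_one _ _⟩
  have hL := tendsto_ulim_of_compact (W := W) isCompact_Icc hmem
  set L := ulim W (fun i => tvDist (μ i) (ν i)) with hLdef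
  have hdiff : ∀ A : ∀ i, Set (E i), Tendsto (fun i => |(μ i).real (A i) - (ν i).real (A i)|) W
      (𝓝 |(loeb W μ).real (intSet W A) - (loeb W ν).real (intSet W A)|) :=
    fun A => ((loeb_intSet_real μ A).sub (loeb_intSet_real ν A)).abs
  have hle : tvDist (loeb W μ) (loeb W ν) ≤ L := by
    refine tvDist_le (fun A hA => ?_)
    refine le_of_forall_pos_le_add (fun ε hε => ?_)
    obtain ⟨B, hB, hAB⟩ := exists_measure_symmDiff_lt_of_generateFrom_isSetRing
      (μ := loeb W μ + loeb W ν) isSetRing_internal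
      (⟨{univ}, countable_singleton _, by
        rw [singleton_subset_iff]; exact ⟨_, intSet_univ⟩, by simp⟩) rfl hA
      (ε := ENNReal.ofReal (ε / 2)) (by simpa using hε)
    obtain ⟨C, rfl⟩ := hB
    have h1 : (loeb W μ).real (symmDiff (intSet W C) A) ≤ ε / 2 := by
      rw [measureReal_def]
      apply ENNReal.toReal_le_of_le_ofReal (by positivity)
      refine le_trans ?_ hAB.le
      rw [Measure.add_apply]
      exact le_self_add
    have h2 : (loeb W ν).real (symmDiff (intSet W C) A) ≤ ε / 2 := by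
      rw [measureReal_def]
      apply ENNReal.toReal_le_of_le_ofReal (by positivity)
      refine le_trans ?_ hAB.le
      rw [Measure.add_apply]
      exact le_add_self
    have h3 := abs_measureReal_sub_le_measureReal_symmDiff (μ := loeb W μ)
      (measurableSet_intSet C).nullMeasurableSet hA.nullMeasurableSet
    have h4 := abs_measureReal_sub_le_measureReal_symmDiff (μ := loeb W ν)
      (measurableSet_intSet C).nullMeasurableSet hA.nullMeasurableSet
    have h5 : |(loeb W μ).real (intSet W C) - (loeb W ν).real (intSet W C)| ≤ L :=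
      le_of_tendsto_of_tendsto' (hdiff C) hL
        (fun i => le_tvDist _ _ (MeasurableSet.of_discrete))
    have h6 := abs_le.mp (h3.trans h1)
    have h7 := abs_le.mp (h4.trans h2)
    have h8 := abs_le.mp h5
    rw [abs_le]
    constructor <;> linarith [h6.1, h6.2, h7.1, h7.2, h8.1, h8.2]
  have hge : L ≤ tvDist (loeb W μ) (loeb W ν) := by
    refine le_of_forall_pos_le_add (fun ε hε => ?_)
    have hex : ∀ i, ∃ A : Set (E i), tvDist (μ i) (ν i) - ε < |(μ i).real A - (ν i).real A| := by
      intro i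
      have hlt : tvDist (μ i) (ν i) - ε < tvDist (μ i) (ν i) := by linarith
      have : Nonempty {A : Set (E i) // MeasurableSet A} := ⟨⟨∅, MeasurableSet.empty⟩⟩
      obtain ⟨A, hA⟩ := exists_lt_of_lt_ciSup hlt
      exact ⟨A.1, hA⟩
    choose A hA using hex
    have h1 : L - ε ≤ |(loeb W μ).real (intSet W A) - (loeb W ν).real (intSet W A)| :=
      le_of_tendsto_of_tendsto' (hL.sub_const ε) (hdiff A) (fun i => (hA i).le)
    have h2 := le_tvDist (loeb W μ) (loeb W ν) (measurableSet_intSet A)
    linarith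
  rw [le_antisymm hle hge]
  exact hL

end Kern

section LimSemi

variable {ι : Type} (W : Ultrafilter ι) {S : ι → Type}
variable [∀ i, MeasurableSpace (S i)] [∀ i, DiscreteMeasurableSpace (S i)]
variable [Incomplete W] [∀ i, Nonempty (S i)]

/-- The limit semigroup. -/
noncomputable def limSemi (M : ∀ i, MarkovSemigroup (S i)) : MarkovSemigroup (UProd W S) where
  P t := loebKernel W (fun i => (M i).P t)
  markov t := inferInstance
  zero x := by
    rw [loebKernel_apply]
    simp_rw [(M _).zero]
    exact loeb_dirac x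
  add s t x := by
    rw [loebKernel_apply, loebKernel_apply, loeb_bind]
    simp_rw [(M _).add s t]
  π := loeb W (fun i => (M i).π)
  prob := inferInstance
  stat t := by
    rw [loeb_bind]
    simp_rw [(M _).stat t]

theorem limSemi_d (M : ∀ i, MarkovSemigroup (S i)) (x : UProd W S) (t : ℝ≥0) :
    Tendsto (fun i => (M i).d (x.val i) t) W (𝓝 ((limSemi W M).d x t)) :=
  tendsto_tvDist (fun i => (M i).P t (x.val i)) (fun i => (M i).π)

end LimSemi

section Path

/-- auxiliary path space with the discrete sigma-algebra -/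
structure Traj (S : Type) : Type where
  /-- the path -/
  val : ℝ≥0 → S

instance (S : Type) : MeasurableSpace (Traj S) := ⊤
instance (S : Type) : DiscreteMeasurableSpace (Traj S) := ⟨fun _ => trivial⟩
instance (S : Type) [Nonempty S] : Nonempty (Traj S) := ⟨⟨fun _ => Classical.arbitrary S⟩⟩

/-- update a path -/
noncomputable def Traj.upd {S : Type} (ω : Traj S) (t : ℝ≥0) (y : S) : Traj S :=
  ⟨Function.update ω.val t y⟩

variable {S : Type} [MeasurableSpace S] [DiscreteMeasurableSpace S] (M : MarkovSemigroup S)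

/-- path measure along a list of times -/
noncomputable def pathM : List ℝ≥0 → ℝ≥0 → S → Traj S → Measure (Traj S)
  | [], _, _, ω => Measure.dirac ω
  | t :: l, t0, x, ω => (M.P (t - t0) x).bind (fun y => pathM l t y (ω.upd t y))

theorem lintegral_pathM_nil (t0 : ℝ≥0) (x : S) (ω : Traj S) (g : Traj S → ℝ≥0∞) :
    ∫⁻ z, g z ∂(pathM M [] t0 x ω) = g ω := by
  rw [pathM, lintegral_dirac]

theorem lintegral_pathM_cons (t : ℝ≥0) (l : List ℝ≥0) (t0 : ℝ≥0) (x : S) (ω : Traj S)
    (g : Traj S → ℝ≥0∞) :
    ∫⁻ z, g z ∂(pathM M (t :: l) t0 x ω)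
      = ∫⁻ y, (∫⁻ z, g z ∂(pathM M l t y (ω.upd t y))) ∂(M.P (t - t0) x) := by
  rw [pathM, Measure.lintegral_bind (Measurable.of_discrete).aemeasurable
    (Measurable.of_discrete).aemeasurable]

theorem pathM_prob (l : List ℝ≥0) : ∀ (t0 : ℝ≥0) (x : S) (ω : Traj S),
    IsProbabilityMeasure (pathM M l t0 x ω) := by
  induction l with
  | nil => intro t0 x ω; rw [pathM]; infer_instance
  | cons t l ih =>
    intro t0 x ω
    constructor
    have h := lintegral_pathM_cons M t l t0 x ω (fun _ => 1)
    have h2 : ∀ y, ∫⁻ z, (1 : ℝ≥0∞) ∂(pathM M l t y (ω.upd t y)) = 1 := by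
      intro y
      have := ih t y (ω.upd t y)
      simp
    simp_rw [h2] at h
    simpa using h

theorem pathM_factor (l : List ℝ≥0) (g h : Traj S → ℝ≥0∞) :
    ∀ (t0 : ℝ≥0) (x : S) (ω : Traj S), (∀ u ∈ l, ∀ ω y, g (Traj.upd ω u y) = g ω) →
    ∫⁻ z, g z * h z ∂(pathM M l t0 x ω) = g ω * ∫⁻ z, h z ∂(pathM M l t0 x ω) := by
  induction l with
  | nil => intro t0 x ω _; rw [lintegral_pathM_nil, lintegral_pathM_nil]
  | cons t l ih =>
    intro t0 x ω hg
    rw [lintegral_pathM_cons, lintegral_pathM_cons]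
    have h1 : ∀ y, ∫⁻ z, g z * h z ∂(pathM M l t y (ω.upd t y))
        = g ω * ∫⁻ z, h z ∂(pathM M l t y (ω.upd t y)) := by
      intro y
      rw [ih t y (ω.upd t y) (fun u hu => hg u (List.mem_cons_of_mem _ hu)),
        hg t (List.mem_cons_self)]
    simp_rw [h1]
    rw [lintegral_const_mul _ (Measurable.of_discrete)]

theorem pathM_const (l : List ℝ≥0) (g : Traj S → ℝ≥0∞) (t0 : ℝ≥0) (x : S) (ω : Traj S)
    (hg : ∀ u ∈ l, ∀ ω y, g (Traj.upd ω u y) = g ω) :
    ∫⁻ z, g z ∂(pathM M l t0 x ω) = g ω := by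
  have h := pathM_factor M l g (fun _ => 1) t0 x ω hg
  have := pathM_prob M l t0 x ω
  simpa using h

theorem upd_val_ne {ω : Traj S} {t u : ℝ≥0} {y : S} (h : u ≠ t) : (ω.upd t y).val u = ω.val u := by
  simp [Traj.upd, Function.update_of_ne h]

theorem upd_val_self {ω : Traj S} {t : ℝ≥0} {y : S} : (ω.upd t y).val t = y := by
  simp [Traj.upd]

theorem pathM_coord (l : List ℝ≥0) (f : S → ℝ≥0∞) {v : ℝ≥0} :
    ∀ (t0 : ℝ≥0) (x : S) (ω : Traj S), l.Pairwise (· < ·) → (∀ u ∈ l, t0 ≤ u) → v ∈ l →
    ∫⁻ z, f (z.val v) ∂(pathM M l t0 x ω) = ∫⁻ y, f y ∂(M.P (v - t0) x) := by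
  induction l with
  | nil => intro t0 x ω _ _ hv; simp at hv
  | cons t l ih =>
    intro t0 x ω hs h0 hv
    rw [List.pairwise_cons] at hs
    rw [lintegral_pathM_cons]
    by_cases hvt : v = t
    · subst hvt
      refine lintegral_congr (fun y => ?_)
      rw [pathM_const M l (fun z => f (z.val v)) v y (ω.upd v y) ?_]
      · simp only [upd_val_self]
      · intro u hu ω' y'
        have : v ≠ u := (hs.1 u hu).ne
        simp only [upd_val_ne this]
    · have hv' : v ∈ l := by
        rcases List.mem_cons.mp hv with h | h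
        · exact absurd h hvt
        · exact h
      have h1 : ∀ y, ∫⁻ z, f (z.val v) ∂(pathM M l t y (ω.upd t y))
          = ∫⁻ z, f z ∂(M.P (v - t) y) := by
        intro y
        exact ih t y (ω.upd t y) hs.2 (fun u hu => (hs.1 u hu).le) hv'
      simp_rw [h1]
      rw [← Measure.lintegral_bind (M.P (v - t)).measurable.aemeasurable
        (Measurable.of_discrete).aemeasurable, ← M.add]
      have h2 : t - t0 + (v - t) = v - t0 := by
        rw [add_comm]
        exact tsub_add_tsub_cancel (hs.1 v hv').le (h0 t List.mem_cons_self)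
      rw [h2]

theorem pathM_markov (l : List ℝ≥0) (g : Traj S → ℝ≥0∞) (f : S → ℝ≥0∞) {s v : ℝ≥0} (hsv : s ≤ v)
    (hg : ∀ u, s < u → ∀ ω y, g (Traj.upd ω u y) = g ω) :
    ∀ (t0 : ℝ≥0) (x : S) (ω : Traj S), l.Pairwise (· < ·) → (∀ u ∈ l, t0 ≤ u) → s ∈ l → v ∈ l →
    ∫⁻ z, g z * f (z.val v) ∂(pathM M l t0 x ω)
      = ∫⁻ z, g z * (∫⁻ y, f y ∂(M.P (v - s) (z.val s))) ∂(pathM M l t0 x ω) := by
  rcases eq_or_lt_of_le hsv with rfl | hlt
  · intro t0 x ω _ _ _ _
    refine lintegral_congr (fun z => ?_)
    rw [tsub_self, M.zero, lintegral_dirac]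
  induction l with
  | nil => intro t0 x ω _ _ hs _; simp at hs
  | cons t l ih =>
    intro t0 x ω hp h0 hs hv
    rw [List.pairwise_cons] at hp
    rw [lintegral_pathM_cons, lintegral_pathM_cons]
    by_cases hst : s = t
    · subst hst
      have hv' : v ∈ l := by
        rcases List.mem_cons.mp hv with h | h
        · exact absurd h hlt.ne'
        · exact h
      refine lintegral_congr (fun y => ?_)
      rw [pathM_factor M l g (fun z => f (z.val v)) s y (ω.upd s y)
        (fun u hu => hg u (hp.1 u hu)),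
        pathM_coord M l f s y (ω.upd s y) hp.2 (fun u hu => (hp.1 u hu).le) hv',
        pathM_const M l (fun z => g z * (∫⁻ y, f y ∂(M.P (v - s) (z.val s)))) s y (ω.upd s y)]
      · simp only [upd_val_self]
      · intro u hu ω' y'
        have : s ≠ u := (hp.1 u hu).ne
        simp only [upd_val_ne this, hg u (hp.1 u hu)]
    · have hs' : s ∈ l := by
        rcases List.mem_cons.mp hs with h | h
        · exact absurd h hst
        · exact h
      have hts : t < s := hp.1 s hs'
      have hv' : v ∈ l := by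
        rcases List.mem_cons.mp hv with h | h
        · exact absurd h (hts.trans hlt).ne'
        · exact h
      refine lintegral_congr (fun y => ?_)
      exact ih t y (ω.upd t y) hp.2 (fun u hu => (hp.1 u hu).le) hs' hv'

end Path

section Lim

variable {ι : Type} {W : Ultrafilter ι} {S : ι → Type}
variable [∀ i, MeasurableSpace (S i)] [∀ i, DiscreteMeasurableSpace (S i)]
variable [Incomplete W] [∀ i, Nonempty (S i)]

/-- path kernel of the factor -/
noncomputable def factorKernel {S : Type} [MeasurableSpace S] [DiscreteMeasurableSpace S]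
    [Nonempty S] (M : MarkovSemigroup S) (I : Finset ℝ≥0) : Kernel S (Traj S) :=
  ⟨fun x => pathM M (I.sort (· ≤ ·)) 0 x (Classical.arbitrary _), Measurable.of_discrete⟩

instance {S : Type} [MeasurableSpace S] [DiscreteMeasurableSpace S]
    [Nonempty S] (M : MarkovSemigroup S) (I : Finset ℝ≥0) : IsMarkovKernel (factorKernel M I) :=
  ⟨fun _ => pathM_prob M _ _ _ _⟩

/-- reading an internal path -/
def toPath (ω : UProd W (fun i => Traj (S i))) : ℝ≥0 → UProd W S :=
  fun t => ⟨fun i => (ω.val i).val t⟩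

theorem toPath_preimage (t : ℝ≥0) (A : ∀ i, Set (S i)) :
    {ω : UProd W (fun i => Traj (S i)) | toPath ω t ∈ intSet W A}
      = intSet W (fun i => {z : Traj (S i) | z.val t ∈ A i}) := rfl

theorem measurable_toPath : Measurable (toPath (W := W) (S := S)) := by
  rw [measurable_pi_iff]
  intro t
  refine measurable_generateFrom ?_
  rintro _ ⟨A, rfl⟩
  exact measurableSet_intSet (W := W) (fun i => {z : Traj (S i) | z.val t ∈ A i})

/-- the law of the limit process -/
noncomputable def limLaw (M : ∀ i, MarkovSemigroup (S i)) (I : ι → Finset ℝ≥0) :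
    Kernel (UProd W S) (ℝ≥0 → UProd W S) :=
  (loebKernel W (fun i => factorKernel (M i) (I i))).map toPath

instance (M : ∀ i, MarkovSemigroup (S i)) (I : ι → Finset ℝ≥0) :
    IsMarkovKernel (limLaw (W := W) M I) := by
  unfold limLaw
  exact Kernel.IsMarkovKernel.map _ measurable_toPath

theorem limLaw_apply (M : ∀ i, MarkovSemigroup (S i)) (I : ι → Finset ℝ≥0) (x : UProd W S)
    {A : Set (ℝ≥0 → UProd W S)} (hA : MeasurableSet A) :
    limLaw M I x A = loeb W (fun i => factorKernel (M i) (I i) (x.val i)) (toPath ⁻¹' A) := by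
  rw [limLaw, Kernel.map_apply' _ measurable_toPath _ hA, loebKernel_apply]

/-- cylinder event -/
def cyl (F : Finset ℝ≥0) (A : ℝ≥0 → ∀ i, Set (S i)) : Set (ℝ≥0 → UProd W S) :=
  ⋂ u ∈ F, {ω | ω u ∈ intSet W (A u)}

theorem measurable_eval (u : ℝ≥0) : Measurable (fun ω : ℝ≥0 → UProd W S => ω u) :=
  measurable_pi_apply u

theorem measurableSet_coord (u : ℝ≥0) {B : Set (UProd W S)} (hB : MeasurableSet B) :
    MeasurableSet {ω : ℝ≥0 → UProd W S | ω u ∈ B} :=
  measurable_pi_apply u hB

theorem measurableSet_cyl (F : Finset ℝ≥0) (A : ℝ≥0 → ∀ i, Set (S i)) :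
    MeasurableSet (cyl (W := W) F A) :=
  Finset.measurableSet_biInter _ (fun u _ => measurableSet_coord u (measurableSet_intSet _))

/-- factor event -/
def fcyl (F : Finset ℝ≥0) (A : ℝ≥0 → ∀ i, Set (S i)) (i : ι) : Set (Traj (S i)) :=
  {z | ∀ u ∈ F, z.val u ∈ A u i}

theorem toPath_cyl (F : Finset ℝ≥0) (A : ℝ≥0 → ∀ i, Set (S i)) :
    (toPath ⁻¹' (cyl F A) : Set (UProd W (fun i => Traj (S i)))) = intSet W (fcyl F A) := by
  ext ω
  simp only [cyl, mem_preimage, mem_iInter, mem_ofPred_eq, mem_intSet, fcyl]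
  rw [Filter.eventually_all_finset]
  rfl

variable (M : ∀ i, MarkovSemigroup (S i)) (I : ι → Finset ℝ≥0)

/-- the Markov identity for internal cylinder events -/
theorem markov_cyl (hI : ∀ t : ℝ≥0, ∀ᶠ i in (W : Filter ι), t ∈ I i) (x : UProd W S)
    (s t : ℝ≥0) (F : Finset ℝ≥0) (hF : ∀ u ∈ F, u ≤ s) (A : ℝ≥0 → ∀ i, Set (S i))
    (B : ∀ i, Set (S i)) :
    limLaw M I x (cyl F A ∩ {ω | ω (s + t) ∈ intSet W B})
      = ∫⁻ ω in cyl F A, (limSemi W M).P t (ω s) (intSet W B) ∂(limLaw M I x) := by
  classical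
  -- abbreviations
  set Q := loeb W (fun i => factorKernel (M i) (I i) (x.val i)) with hQ
  let g : ∀ i, Traj (S i) → ℝ := fun i z =>
    indicator (fcyl F A i) (fun z => ((M i).P t (z.val s)).real (B i)) z
  have hg : ∀ i z, g i z ∈ Icc (0 : ℝ) 1 := by
    intro i z
    simp only [g]
    by_cases hz : z ∈ fcyl F A i
    · rw [indicator_of_mem hz]; exact real_mem_Icc _ _
    · rw [indicator_of_notMem hz]; simp
  -- left side
  have hmeas : MeasurableSet (cyl (W := W) F A ∩ {ω | ω (s + t) ∈ intSet W B}) :=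
    (measurableSet_cyl F A).inter (measurableSet_coord _ (measurableSet_intSet _))
  have hL : (limLaw M I x (cyl F A ∩ {ω | ω (s + t) ∈ intSet W B})).toReal
      = Q.real (intSet W (fun i => fcyl F A i ∩ {z : Traj (S i) | z.val (s + t) ∈ B i})) := by
    rw [limLaw_apply M I x hmeas, preimage_inter, toPath_cyl, ← intSet_inter]
    rfl
  -- right side
  have hst : ∀ ω : UProd W (fun i => Traj (S i)), st W g ω
      = indicator (intSet W (fcyl F A))
          (fun ω => ((limSemi W M).P t (toPath ω s)).real (intSet W B)) ω := by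
    intro ω
    refine tendsto_nhds_unique (tendsto_st hg ω) ?_
    by_cases hω : ω ∈ intSet W (fcyl F A)
    · rw [indicator_of_mem hω]
      have h1 : Tendsto (fun i => ((M i).P t ((ω.val i).val s)).real (B i)) W
          (𝓝 (((limSemi W M).P t (toPath ω s)).real (intSet W B))) :=
        loeb_intSet_real (fun i => (M i).P t ((ω.val i).val s)) B
      refine h1.congr' ?_
      filter_upwards [hω] with i hi
      simp only [g]
      rw [indicator_of_mem hi]
    · rw [indicator_of_notMem hω]
      refine tendsto_const_nhds.congr' ?_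
      have hω' : ω ∈ (intSet W (fcyl F A))ᶜ := hω
      rw [intSet_compl] at hω'
      filter_upwards [hω'] with i hi
      simp only [g]
      rw [indicator_of_notMem hi]
  have hR : (∫⁻ ω in cyl F A, (limSemi W M).P t (ω s) (intSet W B) ∂(limLaw M I x)).toReal
      = ∫ ω, st W g ω ∂Q := by
    have hmP : Measurable (fun ω : ℝ≥0 → UProd W S => (limSemi W M).P t (ω s) (intSet W B)) :=
      (((limSemi W M).P t).measurable_coe (measurableSet_intSet B)).comp (measurable_pi_apply s)
    rw [← lintegral_indicator (measurableSet_cyl F A), limLaw,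
      Kernel.map_apply _ measurable_toPath, lintegral_map (hmP.indicator (measurableSet_cyl F A))
      measurable_toPath, loebKernel_apply, ← hQ]
    simp_rw [hst]
    rw [integral_eq_lintegral_of_nonneg_ae]
    · congr 1
      refine lintegral_congr (fun ω => ?_)
      have h1 : (toPath ω ∈ cyl (W := W) F A) ↔ ω ∈ intSet W (fcyl F A) := by
        rw [← toPath_cyl]; rfl
      by_cases hω : ω ∈ intSet W (fcyl F A)
      · rw [indicator_of_mem (h1.mpr hω), indicator_of_mem hω, ofReal_measureReal]
      · rw [indicator_of_notMem (fun h => hω (h1.mp h)), indicator_of_notMem hω, ENNReal.ofReal_zero]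
    · refine Eventually.of_forall (fun ω => ?_)
      exact indicator_nonneg (fun _ _ => measureReal_nonneg) ω
    · refine Measurable.aestronglyMeasurable ?_
      refine Measurable.indicator ?_ (measurableSet_intSet _)
      exact ((((limSemi W M).P t).measurable_coe (measurableSet_intSet B)).comp
        ((measurable_pi_apply s).comp measurable_toPath)).ennreal_toReal
  have hne1 : limLaw M I x (cyl F A ∩ {ω | ω (s + t) ∈ intSet W B}) ≠ ∞ := measure_ne_top _ _
  have hne2 : (∫⁻ ω in cyl F A, (limSemi W M).P t (ω s) (intSet W B) ∂(limLaw M I x)) ≠ ∞ := by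
    refine ne_top_of_le_ne_top (measure_ne_top (limLaw M I x) univ) ?_
    calc ∫⁻ ω in cyl F A, (limSemi W M).P t (ω s) (intSet W B) ∂(limLaw M I x)
        ≤ ∫⁻ ω in cyl F A, 1 ∂(limLaw M I x) := lintegral_mono (fun ω => prob_le_one)
      _ = limLaw M I x (cyl F A) := by simp
      _ ≤ _ := measure_mono (subset_univ _)
  rw [← ENNReal.toReal_eq_toReal_iff' hne1 hne2, hL, hR]
  refine tendsto_nhds_unique (loeb_intSet_real _ _) ?_
  refine (tendsto_integral_st (fun i => factorKernel (M i) (I i) (x.val i)) hg).congr' ?_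
  filter_upwards [hI s, hI (s + t)] with i hi1 hi2
  -- factor computation
  simp only [g]
  rw [integral_eq_lintegral_of_nonneg_ae
    (Eventually.of_forall (fun z => indicator_nonneg (fun _ _ => measureReal_nonneg) z))
    (Measurable.of_discrete).aestronglyMeasurable, measureReal_def]
  congr 1
  have h1 : factorKernel (M i) (I i) (x.val i) (fcyl F A i ∩ {z | z.val (s + t) ∈ B i})
      = ∫⁻ z, indicator (fcyl F A i) (fun _ => (1 : ℝ≥0∞)) z
          * indicator (B i) (fun _ => (1 : ℝ≥0∞)) (z.val (s + t))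
          ∂(factorKernel (M i) (I i) (x.val i)) := by
    rw [← lintegral_indicator_one (MeasurableSet.of_discrete)]
    refine lintegral_congr (fun z => ?_)
    by_cases h1 : z ∈ fcyl F A i <;> by_cases h2 : z.val (s + t) ∈ B i <;>
      simp [h1, h2]
  rw [h1]
  have h2 := pathM_markov (M i) ((I i).sort (· ≤ ·))
    (indicator (fcyl F A i) (fun _ => (1 : ℝ≥0∞))) (indicator (B i) (fun _ => (1 : ℝ≥0∞)))
    (s := s) (v := s + t) le_self_add ?_ 0 (x.val i) (Classical.arbitrary _)
    (Finset.sortedLT_sort _).pairwise (fun _ _ => zero_le)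
    ((Finset.mem_sort _).mpr hi1) ((Finset.mem_sort _).mpr hi2)
  · rw [factorKernel, Kernel.coe_mk, h2]
    refine lintegral_congr (fun z => ?_)
    rw [lintegral_indicator_const (MeasurableSet.of_discrete), add_tsub_cancel_left]
    by_cases hz : z ∈ fcyl F A i
    · simp [hz]
    · simp [hz]
  · intro u hu ω y
    have : (ω.upd u y ∈ fcyl F A i) ↔ (ω ∈ fcyl F A i) := by
      simp only [fcyl, mem_ofPred_eq]
      refine forall₂_congr (fun w hw => ?_)
      have hne : w ≠ u := ((hF w hw).trans_lt hu).ne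
      rw [upd_val_ne hne]
    by_cases hω : ω ∈ fcyl F A i
    · rw [indicator_of_mem hω, indicator_of_mem (this.mpr hω)]
    · rw [indicator_of_notMem hω, indicator_of_notMem (fun h => hω (this.mp h))]

/-- generating pi-system of the past -/
def pastPi (W : Ultrafilter ι) (S : ι → Type) (s : ℝ≥0) : Set (Set (ℝ≥0 → UProd W S)) :=
  piiUnionInter (fun u => {Z | ∃ A : ∀ i, Set (S i), Z = {ω : ℝ≥0 → UProd W S | ω u ∈ intSet W A}})
    (Iic s)

theorem past_eq (s : ℝ≥0) : past (UProd W S) s = MeasurableSpace.generateFrom (pastPi W S s) := by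
  apply le_antisymm
  · refine iSup₂_le (fun u hu => ?_)
    have h1 : MeasurableSpace.comap (fun ω : ℝ≥0 → UProd W S => ω u) inferInstance
        = MeasurableSpace.generateFrom
          {Z | ∃ A : ∀ i, Set (S i), Z = {ω : ℝ≥0 → UProd W S | ω u ∈ intSet W A}} := by
      have h2 : (inferInstance : MeasurableSpace (UProd W S))
        = MeasurableSpace.generateFrom (internal W S) := rfl
      rw [h2, MeasurableSpace.comap_generateFrom]
      congr 1
      ext Z
      constructor
      · rintro ⟨_, ⟨A, rfl⟩, rfl⟩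
        exact ⟨A, rfl⟩
      · rintro ⟨A, rfl⟩
        exact ⟨_, ⟨A, rfl⟩, rfl⟩
    rw [h1]
    exact le_generateFrom_piiUnionInter (π := fun u => {Z | ∃ A : ∀ i, Set (S i),
      Z = {ω : ℝ≥0 → UProd W S | ω u ∈ intSet W A}}) (Iic s) hu
  · refine MeasurableSpace.generateFrom_le ?_
    rintro _ ⟨F, hF, ft, hft, rfl⟩
    refine Finset.measurableSet_biInter _ (fun u hu => ?_)
    have h1 : MeasurableSpace.comap (fun ω : ℝ≥0 → UProd W S => ω u) inferInstance
        ≤ past (UProd W S) s :=
      le_iSup₂ (f := fun (u : ℝ≥0) (_ : u ∈ Iic s) =>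
        MeasurableSpace.comap (fun ω : ℝ≥0 → UProd W S => ω u) inferInstance) u (hF hu)
    apply h1
    obtain ⟨A, hA⟩ := hft u hu
    rw [hA]
    exact ⟨intSet W A, measurableSet_intSet A, rfl⟩

theorem past_le (s : ℝ≥0) : past (UProd W S) s ≤ MeasurableSpace.pi := by
  refine iSup₂_le (fun u _ => ?_)
  exact (measurable_pi_apply u).comap_le

theorem isPiSystem_pastPi (s : ℝ≥0) : IsPiSystem (pastPi W S s) := by
  refine isPiSystem_piiUnionInter _ (fun u => ?_) _
  rintro _ ⟨A, rfl⟩ _ ⟨B, rfl⟩ _
  refine ⟨fun i => A i ∩ B i, ?_⟩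
  rw [← intSet_inter]
  rfl

theorem pastPi_cyl {s : ℝ≥0} {E : Set (ℝ≥0 → UProd W S)} (hE : E ∈ pastPi W S s) :
    ∃ (F : Finset ℝ≥0) (A : ℝ≥0 → ∀ i, Set (S i)), (∀ u ∈ F, u ≤ s) ∧ E = cyl F A := by
  classical
  obtain ⟨F, hF, ft, hft, rfl⟩ := hE
  choose! A hA using hft
  refine ⟨F, A, fun u hu => hF hu, ?_⟩
  unfold cyl
  refine iInter₂_congr (fun u hu => ?_)
  exact hA u hu

theorem markov_cyl' (hI : ∀ t : ℝ≥0, ∀ᶠ i in (W : Filter ι), t ∈ I i) (x : UProd W S)
    (s t : ℝ≥0) (F : Finset ℝ≥0) (hF : ∀ u ∈ F, u ≤ s) (A : ℝ≥0 → ∀ i, Set (S i))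
    (B : Set (UProd W S)) (hB : MeasurableSet B) :
    limLaw M I x (cyl F A ∩ {ω | ω (s + t) ∈ B})
      = ∫⁻ ω in cyl F A, (limSemi W M).P t (ω s) B ∂(limLaw M I x) := by
  let μ₁ : Measure (UProd W S) :=
    ((limLaw M I x).restrict (cyl F A)).map (fun ω => ω (s + t))
  let μ₂ : Measure (UProd W S) :=
    (((limLaw M I x).restrict (cyl F A)).map (fun ω => ω s)).bind ((limSemi W M).P t)
  have h1 : ∀ B, MeasurableSet B → μ₁ B = limLaw M I x (cyl F A ∩ {ω | ω (s + t) ∈ B}) := by
    intro B hB
    rw [Measure.map_apply (measurable_eval (s + t)) hB,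
      Measure.restrict_apply (measurable_eval (s + t) hB), inter_comm]
    rfl
  have h2 : ∀ B, MeasurableSet B →
      μ₂ B = ∫⁻ ω in cyl F A, (limSemi W M).P t (ω s) B ∂(limLaw M I x) := by
    intro B hB
    rw [Measure.bind_apply hB ((limSemi W M).P t).measurable.aemeasurable,
      lintegral_map (((limSemi W M).P t).measurable_coe hB) (measurable_eval s)]
  rw [← h1 B hB, ← h2 B hB]
  have h3 : IsFiniteMeasure μ₁ := by
    constructor
    rw [h1 _ MeasurableSet.univ]
    exact measure_lt_top _ _
  have h4 : μ₁ = μ₂ := by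
    refine ext_of_generate_finite (internal W S) rfl isPiSystem_internal ?_ ?_
    · rintro _ ⟨C, rfl⟩
      rw [h1 _ (measurableSet_intSet C), h2 _ (measurableSet_intSet C)]
      exact markov_cyl M I hI x s t F hF A C
    · rw [h1 _ MeasurableSet.univ, h2 _ MeasurableSet.univ]
      simp
  rw [h4]

theorem markov_full (hI : ∀ t : ℝ≥0, ∀ᶠ i in (W : Filter ι), t ∈ I i) (x : UProd W S)
    (s t : ℝ≥0) (E : Set (ℝ≥0 → UProd W S)) (B : Set (UProd W S))
    (hE : MeasurableSet[past (UProd W S) s] E) (hB : MeasurableSet B) :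
    limLaw M I x (E ∩ {ω | ω (s + t) ∈ B})
      = ∫⁻ ω in E, (limSemi W M).P t (ω s) B ∂(limLaw M I x) := by
  let ρ₁ : Measure (ℝ≥0 → UProd W S) := (limLaw M I x).restrict {ω | ω (s + t) ∈ B}
  let ρ₂ : Measure (ℝ≥0 → UProd W S) :=
    (limLaw M I x).withDensity (fun ω => (limSemi W M).P t (ω s) B)
  have h1 : ∀ E, MeasurableSet E → ρ₁ E = limLaw M I x (E ∩ {ω | ω (s + t) ∈ B}) :=
    fun E hE => Measure.restrict_apply hE
  have h2 : ∀ E, MeasurableSet E →
      ρ₂ E = ∫⁻ ω in E, (limSemi W M).P t (ω s) B ∂(limLaw M I x) :=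
    fun E hE => withDensity_apply _ hE
  have hle := past_le (W := W) (S := S) s
  have h3 : IsFiniteMeasure (ρ₁.trim hle) := by
    have : IsFiniteMeasure ρ₁ := inferInstance
    infer_instance
  have h4 : ρ₁.trim hle = ρ₂.trim hle := by
    refine ext_of_generate_finite (pastPi W S s) (past_eq s) (isPiSystem_pastPi s) ?_ ?_
    · intro E hE
      obtain ⟨F, A, hF, rfl⟩ := pastPi_cyl hE
      have hm : MeasurableSet[past (UProd W S) s] (cyl (W := W) F A) := by
        rw [past_eq s]
        exact MeasurableSpace.measurableSet_generateFrom hE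
      rw [trim_measurableSet_eq hle hm, trim_measurableSet_eq hle hm, h1 _ (hle _ hm),
        h2 _ (hle _ hm)]
      exact markov_cyl' M I hI x s t F hF A B hB
    · rw [trim_measurableSet_eq hle MeasurableSet.univ, trim_measurableSet_eq hle MeasurableSet.univ,
        h1 _ MeasurableSet.univ, h2 _ MeasurableSet.univ]
      have := markov_cyl' M I hI x s t ∅ (by simp) (fun _ _ => univ) B hB
      simpa [cyl] using this
  rw [← h1 E (hle _ hE), ← h2 E (hle _ hE), ← trim_measurableSet_eq hle hE,
    ← trim_measurableSet_eq hle hE, h4]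

theorem limLaw_start (hI : ∀ t : ℝ≥0, ∀ᶠ i in (W : Filter ι), t ∈ I i) (x : UProd W S) :
    (limLaw M I x).map (fun ω => ω 0) = Measure.dirac x := by
  have hp : IsProbabilityMeasure ((limLaw M I x).map (fun ω => ω 0)) :=
    Measure.isProbabilityMeasure_map (measurable_eval 0).aemeasurable
  apply measure_ext
  intro A
  rw [← loeb_dirac x]
  rw [measureReal_def, Measure.map_apply (measurable_eval 0) (measurableSet_intSet A),
    limLaw_apply M I x (measurable_eval 0 (measurableSet_intSet A))]
  have h0 : (toPath ⁻¹' ((fun ω : ℝ≥0 → UProd W S => ω 0) ⁻¹' intSet W A) :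
      Set (UProd W (fun i => Traj (S i)))) = intSet W (fun i => {z : Traj (S i) | z.val 0 ∈ A i}) :=
    rfl
  rw [h0, ← measureReal_def]
  refine tendsto_nhds_unique (loeb_intSet_real _ _) ?_
  refine (loeb_intSet_real (fun i => Measure.dirac (x.val i)) A).congr' ?_
  filter_upwards [hI 0] with i hi
  rw [measureReal_def, measureReal_def]
  congr 1
  have h1 : factorKernel (M i) (I i) (x.val i) {z | z.val 0 ∈ A i}
      = ∫⁻ z, indicator (A i) (fun _ => (1 : ℝ≥0∞)) (z.val 0)
          ∂(factorKernel (M i) (I i) (x.val i)) := by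
    rw [← lintegral_indicator_one (MeasurableSet.of_discrete)]
    refine lintegral_congr (fun z => ?_)
    by_cases h2 : z.val 0 ∈ A i <;> simp [h2]
  rw [h1, factorKernel, Kernel.coe_mk, pathM_coord (M i) _ _ 0 (x.val i) _
    (Finset.sortedLT_sort _).pairwise (fun _ _ => zero_le)
    ((Finset.mem_sort _).mpr hi), tsub_self, (M i).zero,
    lintegral_indicator_const (MeasurableSet.of_discrete), one_mul]

/-- The limit process. -/
noncomputable def limProc (hI : ∀ t : ℝ≥0, ∀ᶠ i in (W : Filter ι), t ∈ I i) :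
    MarkovProcess (UProd W S) where
  toMarkovSemigroup := limSemi W M
  law := limLaw M I
  law_markov := inferInstance
  start := limLaw_start M I hI
  markov_property := markov_full M I hI

end Lim

section Final

variable {ι : Type} {W : Ultrafilter ι} {S : ι → Type}
variable [∀ i, MeasurableSpace (S i)] [∀ i, DiscreteMeasurableSpace (S i)]
variable [Incomplete W] [∀ i, Nonempty (S i)]
variable (M : ∀ i, MarkovSemigroup (S i))

theorem tendsto_profile (x : UProd W S) :
    Tendsto (fun i => (M i).profile (x.val i)) W (𝓝 ((limSemi W M).profile x)) :=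
  Prof.tendsto_of_pointwise (fun t => limSemi_d W M x t)

theorem st_profile (Φ : Prof → ℝ) (hΦ : Continuous Φ) (x : UProd W S) :
    st W (fun i y => Φ ((M i).profile y)) x = Φ ((limSemi W M).profile x) :=
  ulim_eq ((hΦ.tendsto _).comp (tendsto_profile M x))

theorem Psi_mem (f : Prof) (q : ℚ) : Prof.Psi f q ∈ Icc (0 : ℝ) |(q : ℝ)| := by
  unfold Prof.Psi
  constructor
  · exact intervalIntegral.integral_nonneg (abs_nonneg _) (fun u _ => (f.2.2 _).1)
  · have h1 : ∫ s in (0 : ℝ)..|(q : ℝ)|, (1 : ℝ) = |(q : ℝ)| := by simp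
    calc ∫ s in (0 : ℝ)..|(q : ℝ)|, f.1 s.toNNReal ≤ ∫ s in (0 : ℝ)..|(q : ℝ)|, (1 : ℝ) :=
          intervalIntegral.integral_mono_on (abs_nonneg _) (Prof.intervalIntegrable f _ _)
            intervalIntegrable_const (fun u _ => (f.2.2 _).2)
      _ = _ := h1

theorem measurable_profile : Measurable (limSemi W M).profile := by
  have h1 : (inferInstance : MeasurableSpace Prof)
      = MeasurableSpace.comap Prof.Psi inferInstance := by
    have h2 : (inferInstance : MeasurableSpace Prof) = borel Prof := rfl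
    have h3 : (inferInstance : MeasurableSpace (ℚ → ℝ)) = borel (ℚ → ℝ) :=
      BorelSpace.measurable_eq
    rw [h2, h3, ← borel_comap]
    congr 1
    exact Prof.isInducing_Psi.eq_induced
  have h4 : Measurable (Prof.Psi ∘ (limSemi W M).profile) := by
    rw [measurable_pi_iff]
    intro q
    have hc : Continuous (fun f : Prof => Prof.Psi f q) :=
      (continuous_apply q).comp Prof.isInducing_Psi.continuous
    have h5 : (fun x => (Prof.Psi ∘ (limSemi W M).profile) x q)
        = st W (fun i y => Prof.Psi ((M i).profile y) q) := by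
      ext x
      exact (st_profile M _ hc x).symm
    rw [h5]
    exact measurable_st (fun i y => Psi_mem _ _)
  intro B hB
  have hB' : MeasurableSet[MeasurableSpace.comap Prof.Psi inferInstance] B := by
    rw [← h1]; exact hB
  obtain ⟨B', hB'1, rfl⟩ := hB'
  exact h4 hB'1

end Final

theorem main_result (C : ℕ → FiniteChain) (φ : ℕ → ℕ) (_hφ : StrictMono φ) (μ : ProbabilityMeasure Prof)
    (hμ : Tendsto (fun n => (C (φ n)).lawF) atTop (𝓝 μ)) :
    ∃ (S : Type) (_ : MeasurableSpace S) (X : MarkovProcess S),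
      Measurable X.profile ∧ X.π.map X.profile = (μ : Measure Prof) := by
  classical
  let W : Ultrafilter (ℕ × Finset ℝ≥0) := Ultrafilter.of atTop
  have hW : (W : Filter (ℕ × Finset ℝ≥0)) ≤ atTop := Ultrafilter.of_le _
  have hfst : Tendsto (fun i : ℕ × Finset ℝ≥0 => i.1) W atTop := by
    refine Tendsto.mono_left ?_ hW
    rw [← prod_atTop_atTop_eq]
    exact tendsto_fst
  have hsnd : Tendsto (fun i : ℕ × Finset ℝ≥0 => i.2) W atTop := by
    refine Tendsto.mono_left ?_ hW
    rw [← prod_atTop_atTop_eq]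
    exact tendsto_snd
  have hinc : Incomplete W := ⟨_, hfst⟩
  have hI : ∀ t : ℝ≥0, ∀ᶠ i in (W : Filter (ℕ × Finset ℝ≥0)), t ∈ i.2 := by
    intro t
    filter_upwards [hsnd.eventually_ge_atTop {t}] with i hi
    exact hi (Finset.mem_singleton_self t)
  let S : ℕ × Finset ℝ≥0 → Type := fun i => (C (φ i.1)).S
  let M : ∀ i, MarkovSemigroup (S i) := fun i => (C (φ i.1)).M
  refine ⟨UProd W S, inferInstance, limProc M (fun i => i.2) hI, measurable_profile M, ?_⟩
  have hm := measurable_profile (W := W) M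
  have hp : IsProbabilityMeasure ((limSemi W M).π.map (limSemi W M).profile) :=
    Measure.isProbabilityMeasure_map hm.aemeasurable
  change (limSemi W M).π.map (limSemi W M).profile = (μ : Measure Prof)
  refine ext_of_forall_integral_eq_of_IsFiniteMeasure (fun Φ => ?_)
  rw [integral_map hm.aemeasurable Φ.continuous.aestronglyMeasurable]
  have hg : ∀ i (y : S i), (fun i y => Φ ((M i).profile y)) i y ∈ Icc (-‖Φ‖) ‖Φ‖ := by
    intro i y
    exact abs_le.mp (Φ.norm_coe_le_norm _)
  have h1 := tendsto_integral_st' (W := W) (fun i => (M i).π) hg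
  have h2 : ∀ x, st W (fun i y => Φ ((M i).profile y)) x = Φ ((limSemi W M).profile x) :=
    st_profile M _ Φ.continuous
  simp_rw [h2] at h1
  refine tendsto_nhds_unique h1 ?_
  have h3 := (ProbabilityMeasure.tendsto_iff_forall_integral_tendsto.mp hμ Φ).comp hfst
  refine h3.congr (fun i => ?_)
  simp only [Function.comp]
  change ∫ f, Φ f ∂((C (φ i.1)).M.π.map (C (φ i.1)).M.profile) = _
  rw [integral_map (Measurable.of_discrete).aemeasurable Φ.continuous.aestronglyMeasurable]

end Pool.Agent.H95.MP
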