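import Mathlib

/-!
# Definitions for the problem on stationary distance profiles of Markov chains

* `tvDist` : total variation distance `sup_A |μ(A) - ν(A)|`.
* `Prof` : the space `𝓜` of nonincreasing functions `[0,∞) → [0,1]`, with the topology of pointwise
  convergence at the continuity points of the limit.
* `MarkovSemigroup`, `MarkovProcess` : continuous-time, time-homogeneous Markov processes on an
  arbitrary measurable space, with a stationary distribution; `profile` is the function `x ↦ d_x(·)`.
* `FiniteChain` : finite-state irreducible continuous-time Markov chains; `lawF` is the law of the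
  random function `F(t) = d_X(t)`, `X ∼ π`.
-/

open MeasureTheory Filter Topology Set ProbabilityTheory
open scoped ENNReal NNReal BoundedContinuousFunction

namespace Pool.Agent.H95.MP

/-- Total variation distance `sup_A |μ(A) - ν(A)|`. -/
noncomputable def tvDist {S : Type*} [MeasurableSpace S] (μ ν : Measure S) : ℝ :=
  ⨆ A : {A : Set S // MeasurableSet A}, |μ.real A.1 - ν.real A.1|

section tv

variable {S T : Type*} [MeasurableSpace S] [MeasurableSpace T]

theorem abs_real_sub_le_one (μ ν : Measure S) [IsProbabilityMeasure μ] [IsProbabilityMeasure ν]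
    (A : Set S) : |μ.real A - ν.real A| ≤ 1 := by
  rw [abs_le]
  have h1 : μ.real A ≤ 1 := measureReal_le_one
  have h2 : ν.real A ≤ 1 := measureReal_le_one
  have h3 : 0 ≤ μ.real A := measureReal_nonneg
  have h4 : 0 ≤ ν.real A := measureReal_nonneg
  constructor <;> linarith

theorem tvDist_bdd (μ ν : Measure S) [IsProbabilityMeasure μ] [IsProbabilityMeasure ν] :
    BddAbove (range fun A : {A : Set S // MeasurableSet A} => |μ.real A.1 - ν.real A.1|) := by
  refine ⟨1, ?_⟩
  rintro _ ⟨A, rfl⟩
  exact abs_real_sub_le_one μ ν _

theorem le_tvDist (μ ν : Measure S) [IsProbabilityMeasure μ] [IsProbabilityMeasure ν]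
    {A : Set S} (hA : MeasurableSet A) : |μ.real A - ν.real A| ≤ tvDist μ ν :=
  le_ciSup (tvDist_bdd μ ν) (⟨A, hA⟩ : {A : Set S // MeasurableSet A})

theorem tvDist_le {μ ν : Measure S} {c : ℝ}
    (h : ∀ A, MeasurableSet A → |μ.real A - ν.real A| ≤ c) : tvDist μ ν ≤ c := by
  have : Nonempty {A : Set S // MeasurableSet A} := ⟨⟨∅, MeasurableSet.empty⟩⟩
  exact ciSup_le (fun A => h A.1 A.2)

theorem tvDist_nonneg (μ ν : Measure S) [IsProbabilityMeasure μ] [IsProbabilityMeasure ν] :
    0 ≤ tvDist μ ν :=
  (abs_nonneg _).trans (le_tvDist μ ν MeasurableSet.empty)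

theorem tvDist_le_one (μ ν : Measure S) [IsProbabilityMeasure μ] [IsProbabilityMeasure ν] :
    tvDist μ ν ≤ 1 := tvDist_le (fun A _ => abs_real_sub_le_one μ ν A)

theorem abs_integral_sub_le_tvDist (μ ν : Measure S) [IsProbabilityMeasure μ]
    [IsProbabilityMeasure ν] {g : S → ℝ} (hg : Measurable g) (h : ∀ x, g x ∈ Icc (0 : ℝ) 1) :
    |∫ x, g x ∂μ - ∫ x, g x ∂ν| ≤ tvDist μ ν := by
  have hint : ∀ (ρ : Measure S) [IsProbabilityMeasure ρ], Integrable g ρ := by
    intro ρ _
    refine Integrable.of_bound hg.aestronglyMeasurable 1 (Eventually.of_forall ?_)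
    intro x
    rw [Real.norm_eq_abs, abs_of_nonneg (h x).1]
    exact (h x).2
  have hlc : ∀ (ρ : Measure S) [IsProbabilityMeasure ρ],
      ∫ x, g x ∂ρ = ∫ t in Ioc (0 : ℝ) 1, ρ.real {a : S | t ≤ g a} := by
    intro ρ _
    exact (hint ρ).integral_eq_integral_Ioc_meas_le (Eventually.of_forall (fun x => (h x).1))
      (Eventually.of_forall (fun x => (h x).2))
  have hanti : ∀ (ρ : Measure S) [IsProbabilityMeasure ρ],
      IntegrableOn (fun t : ℝ => ρ.real {a : S | t ≤ g a}) (Ioc (0 : ℝ) 1) := by
    intro ρ _
    have hm : Antitone (fun t : ℝ => ρ.real {a : S | t ≤ g a}) := by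
      intro s t hst
      exact measureReal_mono (fun a (ha : t ≤ g a) => hst.trans ha)
    refine Measure.integrableOn_of_bounded (M := 1) (by simp) hm.measurable.aestronglyMeasurable ?_
    refine Eventually.of_forall (fun t => ?_)
    rw [Real.norm_eq_abs, abs_of_nonneg measureReal_nonneg]
    exact measureReal_le_one
  rw [hlc μ, hlc ν, ← integral_sub (hanti μ) (hanti ν)]
  have := norm_setIntegral_le_of_norm_le_const (μ := volume) (s := Ioc (0 : ℝ) 1)
    (f := fun t : ℝ => μ.real {a : S | t ≤ g a} - ν.real {a : S | t ≤ g a})
    (C := tvDist μ ν) (by simp) ?_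
  · simpa using this
  · intro t _
    exact le_tvDist μ ν (measurableSet_le measurable_const hg)

theorem bind_real (μ : Measure S) (κ : Kernel S T) [IsProbabilityMeasure μ]
    [IsMarkovKernel κ] {A : Set T} (hA : MeasurableSet A) :
    (μ.bind κ).real A = ∫ x, (κ x).real A ∂μ := by
  simp only [measureReal_def]
  rw [Measure.bind_apply hA κ.measurable.aemeasurable,
    integral_toReal (κ.measurable_coe hA).aemeasurable
      (Eventually.of_forall (fun x => measure_lt_top _ _))]

theorem tvDist_bind_le (μ ν : Measure S) [IsProbabilityMeasure μ] [IsProbabilityMeasure ν]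
    (κ : Kernel S T) [IsMarkovKernel κ] : tvDist (μ.bind κ) (ν.bind κ) ≤ tvDist μ ν := by
  refine tvDist_le (fun A hA => ?_)
  rw [bind_real μ κ hA, bind_real ν κ hA]
  refine abs_integral_sub_le_tvDist μ ν (κ.measurable_coe hA).ennreal_toReal ?_
  intro x
  exact ⟨measureReal_nonneg, measureReal_le_one⟩

end tv

/-- The space `𝓜` of nonincreasing functions `[0,∞) → [0,1]`. The topology below does not separate
functions that agree at all their common continuity points; this is the identification made in the
problem. -/
def Prof : Type := {f : ℝ≥0 → ℝ // Antitone f ∧ ∀ t, 0 ≤ f t ∧ f t ≤ 1}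

namespace Prof

/-- Pointwise convergence at the continuity points `t > 0` of the limit. (The value at `t = 0` of an
element of `𝓜` carries no information after the identification of functions agreeing at their
common continuity points, and so is not tested.) -/
def ConvTo (u : ℕ → Prof) (f : Prof) : Prop :=
  ∀ t : ℝ≥0, 0 < t → ContinuousAt f.1 t → Tendsto (fun n => (u n).1 t) atTop (𝓝 (f.1 t))

/-- The topology of pointwise convergence at continuity points of the limit: a set `O` is open when
every sequence converging in the sense of `ConvTo` to a point of `O` is eventually in `O`. (It is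
pseudometrizable, and its convergent sequences are exactly the `ConvTo` ones, see `tendsto_iff` in
the next module.) -/
instance : TopologicalSpace Prof where
  IsOpen O := ∀ (u : ℕ → Prof) (f : Prof), f ∈ O → ConvTo u f → ∀ᶠ n in atTop, u n ∈ O
  isOpen_univ := by
    intro u f _ _
    exact Eventually.of_forall (fun n => mem_univ _)
  isOpen_inter := by
    intro O O' hO hO' u f hf hu
    filter_upwards [hO u f hf.1 hu, hO' u f hf.2 hu] with n h1 h2
    exact ⟨h1, h2⟩
  isOpen_sUnion := by
    intro 𝒪 h𝒪 u f hf hu
    obtain ⟨O, hO, hfO⟩ := hf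
    filter_upwards [h𝒪 O hO u f hfO hu] with n hn
    exact ⟨O, hO, hn⟩

instance : MeasurableSpace Prof := borel Prof

instance : BorelSpace Prof := ⟨rfl⟩

theorem isOpen_def {O : Set Prof} : IsOpen O ↔
    ∀ (u : ℕ → Prof) (f : Prof), f ∈ O → ConvTo u f → ∀ᶠ n in atTop, u n ∈ O := Iff.rfl

end Prof

/-- The transition semigroup of a continuous-time, time-homogeneous Markov process on the
measurable space `S`, together with a stationary distribution. -/
structure MarkovSemigroup (S : Type) [MeasurableSpace S] where
  /-- the transition kernels `P_t(x, ·)` -/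
  P : ℝ≥0 → Kernel S S
  markov : ∀ t, IsMarkovKernel (P t)
  zero : ∀ x, P 0 x = Measure.dirac x
  /-- Chapman-Kolmogorov -/
  add : ∀ s t x, P (s + t) x = (P s x).bind (P t)
  /-- the stationary distribution -/
  π : Measure S
  prob : IsProbabilityMeasure π
  stat : ∀ t, π.bind (P t) = π

namespace MarkovSemigroup

variable {S : Type} [MeasurableSpace S] (M : MarkovSemigroup S)

instance (t : ℝ≥0) : IsMarkovKernel (M.P t) := M.markov t
instance : IsProbabilityMeasure M.π := M.prob

/-- `d_x(t) = ‖P_x(X_t ∈ ·) - π‖`. -/
noncomputable def d (x : S) (t : ℝ≥0) : ℝ := tvDist (M.P t x) M.π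

theorem d_antitone (x : S) : Antitone (M.d x) := by
  intro s t hst
  obtain ⟨r, rfl⟩ := exists_add_of_le hst
  unfold d
  rw [M.add s r x]
  conv_lhs => rw [← M.stat r]
  exact tvDist_bind_le _ _ _

/-- The random function (1), as a function of the starting state. -/
noncomputable def profile (x : S) : Prof :=
  ⟨M.d x, M.d_antitone x, fun _ => ⟨tvDist_nonneg _ _, tvDist_le_one _ _⟩⟩

end MarkovSemigroup

/-- The sigma-algebra on path space generated by the coordinates up to time `s`. -/
def past (S : Type) [MeasurableSpace S] (s : ℝ≥0) : MeasurableSpace (ℝ≥0 → S) :=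
  ⨆ u ∈ Iic s, MeasurableSpace.comap (fun ω : ℝ≥0 → S => ω u) inferInstance

/-- A continuous-time, time-homogeneous Markov process on the measurable space `S` with a
stationary distribution: `law x` is the law `P_x` on path space. -/
structure MarkovProcess (S : Type) [MeasurableSpace S] extends MarkovSemigroup S where
  /-- the law `P_x` of the process started at `x`, on path space with the product sigma-algebra -/
  law : Kernel S (ℝ≥0 → S)
  law_markov : IsMarkovKernel law
  start : ∀ x, (law x).map (fun ω => ω 0) = Measure.dirac x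
  markov_property : ∀ (x : S) (s t : ℝ≥0) (A : Set (ℝ≥0 → S)) (B : Set S),
    MeasurableSet[past S s] A → MeasurableSet B →
    law x (A ∩ {ω | ω (s + t) ∈ B}) = ∫⁻ ω in A, P t (ω s) B ∂(law x)

/-- A finite-state irreducible continuous-time Markov chain: a finite nonempty state space all of
whose subsets are measurable, transition probabilities continuous at `t = 0`, irreducible, with its
stationary distribution. -/
structure FiniteChain where
  /-- the state space -/
  S : Type
  fin : Finite S
  ne : Nonempty S
  ms : MeasurableSpace S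
  disc : DiscreteMeasurableSpace S
  /-- transition probabilities and stationary distribution -/
  M : MarkovSemigroup S
  standard : ∀ x, Tendsto (fun t : ℝ≥0 => M.P t x {x}) (𝓝 0) (𝓝 1)
  irreducible : ∀ x y, ∃ t, M.P t x {y} ≠ 0

namespace FiniteChain

variable (C : FiniteChain)

instance : Nonempty C.S := C.ne
instance : MeasurableSpace C.S := C.ms
instance : DiscreteMeasurableSpace C.S := C.disc

/-- The law, on `𝓜`, of the random function `F(t) = d_X(t)` with `X ∼ π`. -/
noncomputable def lawF : ProbabilityMeasure Prof :=
  ⟨C.M.π.map C.M.profile, Measure.isProbabilityMeasure_map (Measurable.of_discrete).aemeasurable⟩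

end FiniteChain


end Pool.Agent.H95.MP
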