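import Mathlib

set_option linter.unusedSectionVars false

open MeasureTheory Filter Topology Set ProbabilityTheory
open scoped ENNReal NNReal BoundedContinuousFunction

namespace Pool.Agent.H95.MP

section Loeb

variable {ι : Type} (W : Ultrafilter ι)

/-- The product of the spaces `E i`, carrying the sigma-algebra generated by the internal sets. -/
structure UProd (W : Ultrafilter ι) (E : ι → Type) : Type where
  /-- the coordinates -/
  val : ∀ i, E i

variable {E : ι → Type}

/-- Internal sets. -/
def intSet (A : ∀ i, Set (E i)) : Set (UProd W E) := {x | ∀ᶠ i in (W : Filter ι), x.val i ∈ A i}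

variable {W}

theorem mem_intSet {A : ∀ i, Set (E i)} {x : UProd W E} :
    x ∈ intSet W A ↔ ∀ᶠ i in (W : Filter ι), x.val i ∈ A i := Iff.rfl

theorem intSet_compl (A : ∀ i, Set (E i)) : (intSet W A)ᶜ = intSet W (fun i => (A i)ᶜ) := by
  ext x
  simp only [mem_compl_iff, mem_intSet]
  exact (Ultrafilter.eventually_not (f := W) (p := fun i => x.val i ∈ A i)).symm

theorem intSet_inter (A B : ∀ i, Set (E i)) :
    intSet W A ∩ intSet W B = intSet W (fun i => A i ∩ B i) := by
  ext x
  simp only [mem_inter_iff, mem_intSet, eventually_and]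

theorem intSet_union (A B : ∀ i, Set (E i)) :
    intSet W A ∪ intSet W B = intSet W (fun i => A i ∪ B i) := by
  ext x
  simp only [mem_union, mem_intSet]
  exact (Ultrafilter.eventually_or (f := W)).symm

theorem intSet_diff (A B : ∀ i, Set (E i)) :
    intSet W A \ intSet W B = intSet W (fun i => A i \ B i) := by
  rw [sdiff_eq, intSet_compl, intSet_inter]
  rfl

theorem intSet_empty : intSet W (fun i => (∅ : Set (E i))) = ∅ := by
  ext x
  simp [mem_intSet, W.neBot.ne]

theorem intSet_univ : intSet W (fun i => (univ : Set (E i))) = univ := by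
  ext x
  simp [mem_intSet]

theorem intSet_subset [∀ i, Nonempty (E i)] {A B : ∀ i, Set (E i)}
    (h : intSet W A ⊆ intSet W B) : ∀ᶠ i in (W : Filter ι), A i ⊆ B i := by
  classical
  by_contra hne
  rw [← Ultrafilter.eventually_not] at hne
  let x : UProd W E :=
    ⟨fun i => if h : ∃ y, y ∈ A i ∧ y ∉ B i then h.choose else Classical.arbitrary _⟩
  have hx : ∀ i, ¬ (A i ⊆ B i) → x.val i ∈ A i ∧ x.val i ∉ B i := by
    intro i hi
    have h' : ∃ y, y ∈ A i ∧ y ∉ B i := by
      rw [not_subset] at hi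
      obtain ⟨y, hy1, hy2⟩ := hi
      exact ⟨y, hy1, hy2⟩
    have : x.val i = h'.choose := by simp only [x]; rw [dif_pos h']
    rw [this]
    exact h'.choose_spec
  have h1 : x ∈ intSet W A := hne.mono (fun i hi => (hx i hi).1)
  have h2 : x ∈ intSet W B := h h1
  have h3 : ∀ᶠ i in (W : Filter ι), False := by
    filter_upwards [hne, h2] with i hi1 hi2
    exact (hx i hi1).2 hi2
  simp [W.neBot.ne] at h3

theorem intSet_eq [∀ i, Nonempty (E i)] {A B : ∀ i, Set (E i)}
    (h : intSet W A = intSet W B) : ∀ᶠ i in (W : Filter ι), A i = B i := by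
  filter_upwards [intSet_subset h.le, intSet_subset h.ge] with i h1 h2
  exact Subset.antisymm h1 h2

variable (W E) in
/-- the ring of internal sets -/
def internal : Set (Set (UProd W E)) := range (intSet W)

theorem isSetRing_internal : IsSetRing (internal W E) where
  empty_mem := ⟨_, intSet_empty⟩
  union_mem := by
    rintro _ _ ⟨A, rfl⟩ ⟨B, rfl⟩
    exact ⟨_, (intSet_union A B).symm⟩
  sdiff_mem := by
    rintro _ _ ⟨A, rfl⟩ ⟨B, rfl⟩
    exact ⟨_, (intSet_diff A B).symm⟩

instance : MeasurableSpace (UProd W E) := MeasurableSpace.generateFrom (internal W E)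

theorem measurableSet_intSet (A : ∀ i, Set (E i)) : MeasurableSet (intSet W A) :=
  MeasurableSpace.measurableSet_generateFrom ⟨A, rfl⟩

variable (W) in
/-- countable incompleteness -/
class Incomplete : Prop where
  out : ∃ N : ι → ℕ, Tendsto N (W : Filter ι) atTop

theorem saturation [Incomplete W] [∀ i, Nonempty (E i)] {s : ℕ → Set (UProd W E)}
    (hs : ∀ n, s n ∈ internal W E) (hanti : Antitone s) (hempty : ⋂ n, s n = ∅) :
    ∃ n, s n = ∅ := by
  classical
  by_contra hne
  push Not at hne
  obtain ⟨N, hN⟩ := Incomplete.out (W := W)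
  choose B hB using hs
  let good : ℕ → Set ι := fun n => {i | (∀ m ≤ n, B n i ⊆ B m i) ∧ (B n i).Nonempty}
  have hgood : ∀ n, ∀ᶠ i in (W : Filter ι), i ∈ good n := by
    intro n
    have h1 : ∀ᶠ i in (W : Filter ι), ∀ m ∈ Finset.range (n + 1), B n i ⊆ B m i := by
      rw [Filter.eventually_all_finset]
      intro m hm
      apply intSet_subset
      rw [hB n, hB m]
      exact hanti (by simpa [Nat.lt_succ_iff] using hm)
    have h2 : ∀ᶠ i in (W : Filter ι), (B n i).Nonempty := by
      obtain ⟨x, hx⟩ := hne n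
      rw [← hB n] at hx
      exact hx.mono (fun i hi => ⟨_, hi⟩)
    filter_upwards [h1, h2] with i hi1 hi2
    exact ⟨fun m hm => hi1 m (by simpa [Nat.lt_succ_iff] using hm), hi2⟩
  let k : ι → ℕ := fun i => Nat.findGreatest (fun k => i ∈ good k) (N i)
  let x : UProd W E :=
    ⟨fun i => if h : (B (k i) i).Nonempty then h.some else Classical.arbitrary _⟩
  have hx : x ∈ ⋂ n, s n := by
    rw [mem_iInter]
    intro n
    rw [← hB n]
    filter_upwards [hgood n, hN.eventually_ge_atTop n] with i hi1 hi2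
    have hk1 : n ≤ k i := Nat.le_findGreatest hi2 hi1
    have hk2 : i ∈ good (k i) := Nat.findGreatest_spec (P := fun k => i ∈ good k) hi2 hi1
    have : x.val i = hk2.2.some := by simp only [x]; rw [dif_pos hk2.2]
    rw [this]
    exact hk2.1 n hk1 hk2.2.some_mem
  rw [hempty] at hx
  exact hx

variable (W) in
/-- Limits along the ultrafilter. -/
noncomputable def ulim {X : Type*} [TopologicalSpace X] [Nonempty X] (f : ι → X) : X :=
  limUnder (W : Filter ι) f

theorem tendsto_ulim_of_compact {X : Type*} [TopologicalSpace X] [Nonempty X] {K : Set X}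
    (hK : IsCompact K) {f : ι → X} (hf : ∀ i, f i ∈ K) :
    Tendsto f W (𝓝 (ulim W f)) := by
  have : (Ultrafilter.map f W : Filter X) ≤ 𝓟 K := by
    rw [le_principal_iff]
    exact Filter.mem_map.mpr (Filter.univ_mem' hf)
  obtain ⟨x, _, hx⟩ := hK.ultrafilter_le_nhds (Ultrafilter.map f W) this
  exact tendsto_nhds_limUnder ⟨x, hx⟩

theorem tendsto_ulim {X : Type*} [TopologicalSpace X] [Nonempty X] [CompactSpace X] (f : ι → X) :
    Tendsto f W (𝓝 (ulim W f)) :=
  tendsto_ulim_of_compact isCompact_univ (fun _ => mem_univ _)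

theorem ulim_eq {X : Type*} [TopologicalSpace X] [Nonempty X] [T2Space X] {f : ι → X} {a : X}
    (h : Tendsto f W (𝓝 a)) : ulim W f = a := h.limUnder_eq

variable [∀ i, MeasurableSpace (E i)]

open Classical in
/-- content of an internal set -/
noncomputable def cont (ν : ∀ i, Measure (E i)) (s : Set (UProd W E)) : ℝ≥0∞ :=
  if h : s ∈ internal W E then ulim W (fun i => ν i (h.choose i)) else 0

theorem cont_intSet [∀ i, Nonempty (E i)] (ν : ∀ i, Measure (E i)) (A : ∀ i, Set (E i)) :
    Tendsto (fun i => ν i (A i)) W (𝓝 (cont ν (intSet W A))) := by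
  have h : intSet W A ∈ internal W E := ⟨A, rfl⟩
  have h1 : cont ν (intSet W A) = ulim W (fun i => ν i (h.choose i)) := by
    rw [cont, dif_pos h]
  rw [h1]
  have h2 := tendsto_ulim (W := W) (fun i => ν i (h.choose i))
  refine h2.congr' ?_
  have h3 := intSet_eq h.choose_spec
  filter_upwards [h3] with i hi
  rw [hi]

variable [∀ i, DiscreteMeasurableSpace (E i)]

/-- the additive content -/
noncomputable def addCont [∀ i, Nonempty (E i)] (ν : ∀ i, Measure (E i)) :
    AddContent ℝ≥0∞ (internal W E) :=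
  isSetRing_internal.addContent_of_union (cont ν)
    (by
      have h := cont_intSet (W := W) ν (fun i => (∅ : Set (E i)))
      rw [intSet_empty] at h
      simp only [measure_empty] at h
      exact tendsto_nhds_unique h tendsto_const_nhds)
    (by
      rintro _ _ ⟨A, rfl⟩ ⟨B, rfl⟩ hd
      have hA := cont_intSet (W := W) ν A
      have hB := cont_intSet (W := W) ν B
      have hAB := cont_intSet (W := W) ν (fun i => A i ∪ B i)
      rw [← intSet_union] at hAB
      refine tendsto_nhds_unique hAB ((hA.add hB).congr' ?_)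
      have h0 : intSet W (fun i => A i ∩ B i) = intSet W (fun i => (∅ : Set (E i))) := by
        rw [← intSet_inter, intSet_empty]
        exact disjoint_iff_inter_eq_empty.mp hd
      filter_upwards [intSet_eq h0] with i hi
      rw [measure_union (disjoint_iff_inter_eq_empty.mpr hi) (MeasurableSet.of_discrete)])

theorem addCont_apply [∀ i, Nonempty (E i)] (ν : ∀ i, Measure (E i)) (s : Set (UProd W E)) :
    addCont ν s = cont ν s := rfl

theorem addCont_subadd [Incomplete W] [∀ i, Nonempty (E i)] (ν : ∀ i, Measure (E i))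
    [∀ i, IsProbabilityMeasure (ν i)] : (addCont (W := W) ν).IsSigmaSubadditive := by
  apply isSigmaSubadditive_of_addContent_iUnion_eq_tsum isSetRing_internal
  intro f hf hU hd
  refine addContent_iUnion_eq_sum_of_tendsto_zero isSetRing_internal _ ?_ ?_ hf hU hd
  · rintro _ ⟨A, rfl⟩
    have h := cont_intSet (W := W) ν A
    have : cont ν (intSet W A) ≤ 1 := le_of_tendsto h (Eventually.of_forall (fun i => prob_le_one))
    exact ne_top_of_le_ne_top ENNReal.one_ne_top this
  · intro s hs hanti hempty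
    obtain ⟨n, hn⟩ := saturation hs hanti hempty
    refine tendsto_const_nhds.congr' ?_
    filter_upwards [eventually_ge_atTop n] with m hm
    have : s m = ∅ := by
      have := hanti hm
      rw [hn] at this
      exact subset_empty_iff.mp this
    rw [this]
    exact (addContent_empty (m := addCont (W := W) ν)).symm

variable (W) in
/-- The Loeb measure of a family of probability measures. -/
noncomputable def loeb [Incomplete W] [∀ i, Nonempty (E i)] (ν : ∀ i, Measure (E i))
    [∀ i, IsProbabilityMeasure (ν i)] : Measure (UProd W E) :=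
  (addCont (W := W) ν).measure isSetRing_internal.isSetSemiring le_rfl (addCont_subadd ν)

variable [Incomplete W] [∀ i, Nonempty (E i)]

theorem loeb_intSet (ν : ∀ i, Measure (E i)) [∀ i, IsProbabilityMeasure (ν i)]
    (A : ∀ i, Set (E i)) :
    Tendsto (fun i => ν i (A i)) W (𝓝 (loeb W ν (intSet W A))) := by
  rw [loeb, AddContent.measure_eq _ isSetRing_internal.isSetSemiring rfl (addCont_subadd ν) ⟨A, rfl⟩]
  exact cont_intSet ν A

instance (ν : ∀ i, Measure (E i)) [∀ i, IsProbabilityMeasure (ν i)] :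
    IsProbabilityMeasure (loeb W ν) := by
  constructor
  have h := loeb_intSet (W := W) ν (fun i => univ)
  rw [intSet_univ] at h
  simp only [measure_univ] at h
  exact tendsto_nhds_unique h tendsto_const_nhds

theorem loeb_intSet_real (ν : ∀ i, Measure (E i)) [∀ i, IsProbabilityMeasure (ν i)]
    (A : ∀ i, Set (E i)) :
    Tendsto (fun i => (ν i).real (A i)) W (𝓝 ((loeb W ν).real (intSet W A))) :=
  (ENNReal.tendsto_toReal (measure_ne_top _ _)).comp (loeb_intSet ν A)

omit [∀ i, DiscreteMeasurableSpace (E i)] [Incomplete W] [∀ i, Nonempty (E i)]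
  [∀ i, MeasurableSpace (E i)] in
theorem isPiSystem_internal : IsPiSystem (internal W E) := by
  rintro _ ⟨A, rfl⟩ _ ⟨B, rfl⟩ _
  exact ⟨_, (intSet_inter A B).symm⟩

end Loeb

section St

variable {ι : Type} {W : Ultrafilter ι} {E : ι → Type}

variable (W) in
/-- standard part of an internal function -/
noncomputable def st (g : ∀ i, E i → ℝ) (x : UProd W E) : ℝ := ulim W (fun i => g i (x.val i))

theorem tendsto_st {g : ∀ i, E i → ℝ} {a b : ℝ} (hg : ∀ i y, g i y ∈ Icc a b) (x : UProd W E) :
    Tendsto (fun i => g i (x.val i)) W (𝓝 (st W g x)) :=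
  tendsto_ulim_of_compact isCompact_Icc (fun i => hg i (x.val i))

theorem st_mem {g : ∀ i, E i → ℝ} {a b : ℝ} (hg : ∀ i y, g i y ∈ Icc a b) (x : UProd W E) :
    st W g x ∈ Icc a b :=
  isClosed_Icc.mem_of_tendsto (tendsto_st hg x) (Eventually.of_forall (fun i => hg i (x.val i)))

theorem measurable_st {g : ∀ i, E i → ℝ} {a b : ℝ} (hg : ∀ i y, g i y ∈ Icc a b) :
    Measurable (st W g) := by
  apply measurable_of_Ioi
  intro c
  have : st W g ⁻¹' Ioi c = ⋃ (q : ℚ) (_ : c < q), intSet W (fun i => {y | (q : ℝ) < g i y}) := by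
    ext x
    simp only [mem_preimage, mem_Ioi, mem_iUnion, exists_prop, mem_intSet, mem_ofPred_eq]
    constructor
    · intro h
      obtain ⟨q, hq1, hq2⟩ := exists_rat_btwn h
      exact ⟨q, hq1, (tendsto_st hg x).eventually_const_lt hq2⟩
    · rintro ⟨q, hq1, hq2⟩
      refine lt_of_lt_of_le hq1 (ge_of_tendsto (tendsto_st hg x) ?_)
      filter_upwards [hq2] with i hi using hi.le
  rw [this]
  refine MeasurableSet.iUnion (fun q => MeasurableSet.iUnion (fun _ => measurableSet_intSet _))

/-- staircase approximation -/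
noncomputable def stair (K : ℕ) (r : ℝ) : ℝ :=
  ∑ j ∈ Finset.range K, (K : ℝ)⁻¹ * (if ((j : ℝ) + 1) / K ≤ r then 1 else 0)

theorem stair_near {K : ℕ} (hK : 0 < K) {r : ℝ} (hr : r ∈ Icc (0 : ℝ) 1) :
    |stair K r - r| ≤ (K : ℝ)⁻¹ := by
  have hK' : (0 : ℝ) < K := by exact_mod_cast hK
  have hcard : stair K r = (K : ℝ)⁻¹ * (⌊(K : ℝ) * r⌋₊ : ℝ) := by
    unfold stair
    rw [← Finset.mul_sum]
    congr 1
    have h1 : ∀ j ∈ Finset.range K, (if ((j : ℝ) + 1) / K ≤ r then (1 : ℝ) else 0)
        = if j ∈ Finset.range ⌊(K : ℝ) * r⌋₊ then 1 else 0 := by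
      intro j _
      have : (((j : ℝ) + 1) / K ≤ r) ↔ j ∈ Finset.range ⌊(K : ℝ) * r⌋₊ := by
        rw [Finset.mem_range, div_le_iff₀ hK', mul_comm r, ← Nat.succ_le_iff,
          Nat.le_floor_iff (mul_nonneg hK'.le hr.1)]
        push_cast
        rfl
      simp only [this]
    rw [Finset.sum_congr rfl h1, Finset.sum_ite_mem, Finset.sum_const, nsmul_eq_mul, mul_one]
    have : Finset.range K ∩ Finset.range ⌊(K : ℝ) * r⌋₊ = Finset.range ⌊(K : ℝ) * r⌋₊ := by
      apply Finset.inter_eq_right.mpr
      apply Finset.range_subset_range.mpr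
      have h2 : (K : ℝ) * r ≤ K := by nlinarith [hr.2]
      exact_mod_cast Nat.floor_le_of_le h2
    rw [this, Finset.card_range]
  have h3 : (⌊(K : ℝ) * r⌋₊ : ℝ) ≤ K * r := Nat.floor_le (mul_nonneg hK'.le hr.1)
  have h4 : (K : ℝ) * r < ⌊(K : ℝ) * r⌋₊ + 1 := Nat.lt_floor_add_one _
  have h5 : stair K r - r = (K : ℝ)⁻¹ * ((⌊(K : ℝ) * r⌋₊ : ℝ) - K * r) := by
    rw [hcard, mul_sub, ← mul_assoc, inv_mul_cancel₀ hK'.ne', one_mul]
  rw [h5, abs_mul, abs_of_pos (inv_pos.mpr hK')]
  have h6 : |(⌊(K : ℝ) * r⌋₊ : ℝ) - K * r| ≤ 1 := by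
    rw [abs_le]; constructor <;> linarith
  calc (K : ℝ)⁻¹ * _ ≤ (K : ℝ)⁻¹ * 1 := mul_le_mul_of_nonneg_left h6 (inv_pos.mpr hK').le
    _ = _ := mul_one _

variable [∀ i, MeasurableSpace (E i)] [∀ i, DiscreteMeasurableSpace (E i)]
  [Incomplete W] [∀ i, Nonempty (E i)]

theorem integral_stair {S : Type*} [MeasurableSpace S] (μ : Measure S) [IsProbabilityMeasure μ]
    (g : S → ℝ) (hg : Measurable g) (K : ℕ) :
    ∫ x, stair K (g x) ∂μ
      = ∑ j ∈ Finset.range K, (K : ℝ)⁻¹ * μ.real {x | ((j : ℝ) + 1) / K ≤ g x} := by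
  unfold stair
  have hm : ∀ j : ℕ, MeasurableSet {x | ((j : ℝ) + 1) / K ≤ g x} :=
    fun j => measurableSet_le measurable_const hg
  have hind : ∀ j : ℕ, (fun x => if ((j : ℝ) + 1) / K ≤ g x then (1 : ℝ) else 0)
      = indicator {x | ((j : ℝ) + 1) / K ≤ g x} (fun _ => (1 : ℝ)) := by
    intro j
    ext x
    simp [indicator_apply]
  rw [integral_finsetSum]
  · refine Finset.sum_congr rfl (fun j _ => ?_)
    rw [integral_const_mul, hind j, integral_indicator (hm j)]
    simp
  · intro j _
    apply Integrable.const_mul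
    rw [hind j]
    exact (integrable_const 1).indicator (hm j)

theorem integrable_of_Icc {S : Type*} [MeasurableSpace S] (μ : Measure S) [IsProbabilityMeasure μ]
    {g : S → ℝ} (hg : Measurable g) {a b : ℝ} (h : ∀ x, g x ∈ Icc a b) : Integrable g μ := by
  refine Integrable.of_bound hg.aestronglyMeasurable (max |a| |b|) (Eventually.of_forall ?_)
  intro x
  rw [Real.norm_eq_abs]
  exact abs_le_max_abs_abs (h x).1 (h x).2

theorem measurable_stair (K : ℕ) : Measurable (stair K) := by
  unfold stair
  refine Finset.measurable_sum _ (fun j _ => ?_)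
  exact measurable_const.mul (Measurable.ite (measurableSet_le measurable_const measurable_id)
    measurable_const measurable_const)

theorem stair_mem (K : ℕ) (r : ℝ) : stair K r ∈ Icc (0 : ℝ) 1 := by
  unfold stair
  constructor
  · refine Finset.sum_nonneg (fun j _ => ?_)
    split_ifs <;> positivity
  · calc ∑ j ∈ Finset.range K, (K : ℝ)⁻¹ * (if ((j : ℝ) + 1) / K ≤ r then 1 else 0)
        ≤ ∑ j ∈ Finset.range K, (K : ℝ)⁻¹ * 1 := by
          refine Finset.sum_le_sum (fun j _ => mul_le_mul_of_nonneg_left ?_ (by positivity))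
          split_ifs <;> norm_num
      _ ≤ 1 := by
          rw [Finset.sum_const, Finset.card_range, nsmul_eq_mul, mul_one]
          exact mul_inv_le_one

theorem abs_integral_sub_le {S : Type*} [MeasurableSpace S] (μ : Measure S)
    [IsProbabilityMeasure μ] {f g : S → ℝ} (hf : Integrable f μ) (hg : Integrable g μ) {c : ℝ}
    (h : ∀ x, |f x - g x| ≤ c) : |∫ x, f x ∂μ - ∫ x, g x ∂μ| ≤ c := by
  rw [← integral_sub hf hg]
  have := norm_integral_le_of_norm_le_const (μ := μ) (f := fun x => f x - g x) (C := c)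
    (Eventually.of_forall h)
  simpa using this

theorem tendsto_integral_st (ν : ∀ i, Measure (E i)) [∀ i, IsProbabilityMeasure (ν i)]
    {g : ∀ i, E i → ℝ} (hg : ∀ i y, g i y ∈ Icc (0 : ℝ) 1) :
    Tendsto (fun i => ∫ y, g i y ∂(ν i)) W (𝓝 (∫ x, st W g x ∂(loeb W ν))) := by
  rw [Metric.tendsto_nhds]
  intro ε hε
  obtain ⟨K, hK0, hK⟩ : ∃ K : ℕ, 0 < K ∧ (K : ℝ)⁻¹ < ε / 3 := by
    obtain ⟨K, hK⟩ := exists_nat_gt (ε / 3)⁻¹
    have h0 : 0 < (ε / 3)⁻¹ := by positivity
    have hK1 : (0 : ℝ) < K := lt_trans h0 hK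
    refine ⟨K, by exact_mod_cast hK1, ?_⟩
    rw [inv_lt_comm₀ hK1 (by positivity)]
    exact hK
  let A : ℕ → ∀ i, Set (E i) := fun j i => {y | ((j : ℝ) + 1) / K ≤ g i y}
  let h : UProd W E → ℝ := fun x => ∑ j ∈ Finset.range K, (K : ℝ)⁻¹ *
    (indicator (intSet W (A j)) (fun _ => (1 : ℝ)) x)
  have hstair : ∀ x : UProd W E, ∀ᶠ i in (W : Filter ι), stair K (g i (x.val i)) = h x := by
    intro x
    have h1 : ∀ᶠ i in (W : Filter ι), ∀ j ∈ Finset.range K,
        ((x.val i ∈ A j i) ↔ x ∈ intSet W (A j)) := by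
      rw [Filter.eventually_all_finset]
      intro j _
      by_cases hx : x ∈ intSet W (A j)
      · filter_upwards [hx] with i hi
        exact ⟨fun _ => hx, fun _ => hi⟩
      · have hx' : x ∈ (intSet W (A j))ᶜ := hx
        rw [intSet_compl] at hx'
        filter_upwards [hx'] with i hi
        exact ⟨fun h2 => absurd h2 hi, fun h2 => absurd h2 hx⟩
    filter_upwards [h1] with i hi
    simp only [stair, h]
    refine Finset.sum_congr rfl (fun j hj => ?_)
    congr 1
    have h2 := hi j hj
    simp only [A, mem_ofPred_eq] at h2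
    by_cases hx : x ∈ intSet W (A j)
    · rw [indicator_of_mem hx, if_pos (h2.mpr hx)]
    · rw [indicator_of_notMem hx, if_neg (fun h3 => hx (h2.mp h3))]
  have hh_near : ∀ x : UProd W E, |h x - st W g x| ≤ (K : ℝ)⁻¹ := by
    intro x
    have h1 : Tendsto (fun i => |stair K (g i (x.val i)) - g i (x.val i)|) W (𝓝 |h x - st W g x|) := by
      refine (Tendsto.sub ?_ (tendsto_st hg x)).abs
      exact tendsto_const_nhds.congr' ((hstair x).mono (fun i hi => hi.symm))
    exact le_of_tendsto h1 (Eventually.of_forall (fun i => stair_near hK0 (hg i (x.val i))))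
  have hh_meas : Measurable h := by
    refine Finset.measurable_sum _ (fun j _ => ?_)
    exact measurable_const.mul (measurable_const.indicator (measurableSet_intSet _))
  have hh_mem : ∀ x, h x ∈ Icc (0 : ℝ) 1 := by
    intro x
    obtain ⟨i, hi⟩ := (hstair x).exists
    rw [← hi]
    exact stair_mem _ _
  have hint : ∫ x, h x ∂(loeb W ν)
      = ∑ j ∈ Finset.range K, (K : ℝ)⁻¹ * (loeb W ν).real (intSet W (A j)) := by
    simp only [h]
    rw [integral_finsetSum]
    · refine Finset.sum_congr rfl (fun j _ => ?_)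
      rw [integral_const_mul, integral_indicator (measurableSet_intSet _)]
      simp
    · intro j _
      exact ((integrable_const 1).indicator (measurableSet_intSet _)).const_mul _
  have hconv : Tendsto (fun i => ∫ y, stair K (g i y) ∂(ν i)) W (𝓝 (∫ x, h x ∂(loeb W ν))) := by
    rw [hint]
    have h1 : ∀ i, ∫ y, stair K (g i y) ∂(ν i)
        = ∑ j ∈ Finset.range K, (K : ℝ)⁻¹ * (ν i).real (A j i) :=
      fun i => integral_stair (ν i) (g i) (Measurable.of_discrete) K
    simp_rw [h1]
    refine tendsto_finsetSum _ (fun j _ => ?_)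
    exact (loeb_intSet_real ν (A j)).const_mul _
  have hconv' := (Metric.tendsto_nhds.mp hconv) (ε / 3) (by positivity)
  filter_upwards [hconv'] with i hi
  rw [Real.dist_eq] at hi ⊢
  have hgi : Integrable (g i) (ν i) := integrable_of_Icc _ (Measurable.of_discrete) (hg i)
  have hsi : Integrable (fun y => stair K (g i y)) (ν i) :=
    integrable_of_Icc _ (Measurable.of_discrete) (fun y => stair_mem K _)
  have hhi : Integrable h (loeb W ν) := integrable_of_Icc _ hh_meas hh_mem
  have hsti : Integrable (st W g) (loeb W ν) :=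
    integrable_of_Icc _ (measurable_st hg) (st_mem hg)
  have e1 := abs_integral_sub_le (ν i) hsi hgi (fun y => stair_near hK0 (hg i y))
  have e2 := abs_integral_sub_le (loeb W ν) hhi hsti hh_near
  rw [abs_lt] at hi ⊢
  rw [abs_le] at e1 e2
  constructor <;> linarith [e1.1, e1.2, e2.1, e2.2, hi.1, hi.2]

theorem tendsto_integral_st' (ν : ∀ i, Measure (E i)) [∀ i, IsProbabilityMeasure (ν i)]
    {g : ∀ i, E i → ℝ} {M : ℝ} (hg : ∀ i y, g i y ∈ Icc (-M) M) :
    Tendsto (fun i => ∫ y, g i y ∂(ν i)) W (𝓝 (∫ x, st W g x ∂(loeb W ν))) := by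
  have hM : 0 ≤ M := by
    obtain ⟨i, _⟩ := (Eventually.of_forall (f := (W : Filter ι)) (p := fun _ => True)
      (fun _ => trivial)).exists
    obtain ⟨y⟩ := (inferInstance : Nonempty (E i))
    have := hg i y
    linarith [this.1, this.2]
  have hM1 : 0 < 2 * (M + 1) := by linarith
  let g' : ∀ i, E i → ℝ := fun i y => (g i y + (M + 1)) / (2 * (M + 1))
  have hg' : ∀ i y, g' i y ∈ Icc (0 : ℝ) 1 := by
    intro i y
    have := hg i y
    constructor
    · apply div_nonneg _ hM1.le
      linarith [this.1]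
    · rw [div_le_one hM1]
      linarith [this.2]
  have h1 := tendsto_integral_st (W := W) ν hg'
  have h2 : ∀ x, st W g' x = (st W g x + (M + 1)) / (2 * (M + 1)) := by
    intro x
    refine tendsto_nhds_unique (tendsto_st hg' x) ?_
    exact ((tendsto_st hg x).add_const _).div_const _
  have e1 : ∀ i, ∫ y, g i y ∂(ν i) = (2 * (M + 1)) * ∫ y, g' i y ∂(ν i) - (M + 1) := by
    intro i
    have hgi : Integrable (g i) (ν i) := integrable_of_Icc _ (Measurable.of_discrete) (hg i)
    simp only [g']
    rw [integral_div, integral_add hgi (integrable_const _)]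
    simp only [integral_const, probReal_univ, smul_eq_mul, one_mul]
    field_simp
    ring
  have e2 : ∫ x, st W g x ∂(loeb W ν)
      = (2 * (M + 1)) * ∫ x, st W g' x ∂(loeb W ν) - (M + 1) := by
    have hsti : Integrable (st W g) (loeb W ν) :=
      integrable_of_Icc _ (measurable_st hg) (st_mem hg)
    simp_rw [h2]
    rw [integral_div, integral_add hsti (integrable_const _)]
    simp only [integral_const, probReal_univ, smul_eq_mul, one_mul]
    field_simp
    ring
  rw [e2]
  simp_rw [e1]
  exact (h1.const_mul _).sub_const _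

end St

end Pool.Agent.H95.MP
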